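import Pool.Agent.H104.Refl.Count
import Pool.Graph.R_seed8.H161R2.KissFinal
import Pool.Graph.R_seed8.H161R2.KissLow

/-! Kissing configurations invariant under reflections: growth rates. -/

open scoped InnerProductSpace
open Filter Topology

namespace Pool.Agent.H104.Refl

open Pool.Agent.H818R2 Pool.Agent.H161R2.KissSym

lemma sin_pos' : 0 < Real.sin (Real.pi / 3 / 2) := by rw [sin_kiss]; norm_num

variable {n : ℕ}

theorem kiss_le_refl {R : Set (EuclideanSpace ℝ (Fin n))}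
    {X : Finset (EuclideanSpace ℝ (Fin n))} (hX : IsSphCode n (Real.pi / 3) X) (hR : ReflInv R X) :
    X.card ≤ ∑ k ∈ Finset.range 8, (Module.finrank ℝ (Submodule.span ℝ R)).choose k *
      kissing (n - Module.finrank ℝ (Submodule.span ℝ R) + k) :=
  card_le_refl sin_pos' (K := 7) (by rw [sin_kiss]; norm_num) hX hR rfl

lemma choose_sum_le {r j m : ℕ} (hj : 4 ≤ j) (hm : m ≤ j) :
    ∑ k ∈ Finset.range 8, r.choose k * kissing (m + k) ≤ (16 * r + 1) ^ 7 * kissing j := by
  have h1 : ∀ k ∈ Finset.range 8, r.choose k * kissing (m + k) ≤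
      ((16 * r) ^ k * Nat.choose 7 k) * kissing j := by
    intro k hk
    rw [Finset.mem_range] at hk
    have h2 : kissing (m + k) ≤ 16 ^ k * kissing j :=
      (sphMax_mono sin_pos' (by omega : m + k ≤ j + k)).trans (kiss_iter hj k)
    have h3 : r.choose k ≤ r ^ k := Nat.choose_le_pow r k
    have h4 : 1 ≤ Nat.choose 7 k := Nat.choose_pos (by omega)
    calc r.choose k * kissing (m + k) ≤ r ^ k * (16 ^ k * kissing j) := Nat.mul_le_mul h3 h2
      _ = (16 * r) ^ k * 1 * kissing j := by ring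
      _ ≤ _ := Nat.mul_le_mul_right _ (Nat.mul_le_mul_left _ h4)
  refine (Finset.sum_le_sum h1).trans ?_
  rw [← Finset.sum_mul]
  apply Nat.mul_le_mul_right
  have h5 := (Commute.all (16 * r) 1).add_pow (n := 7)
  rw [h5]
  apply le_of_eq
  apply Finset.sum_congr rfl
  intro k _
  simp

/-! ### growth rates -/

lemma map_phi {φ : ℕ → ℕ} (h0 : φ 0 = 0) (hm : Monotone φ) (h1 : ∀ n, φ (n + 1) ≤ φ n + 1)
    (ht : Tendsto φ atTop atTop) : map φ atTop = atTop := by
  apply le_antisymm ht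
  intro s hs
  rw [mem_map, mem_atTop_sets] at hs
  obtain ⟨N, hN⟩ := hs
  rw [mem_atTop_sets]
  refine ⟨φ N + 1, fun m hmN => ?_⟩
  have hex : ∃ n, m ≤ φ n := (ht.eventually_ge_atTop m).exists
  classical
  have hf := Nat.find_spec hex
  have hmin := fun k (hk : k < Nat.find hex) => Nat.find_min hex hk
  set n0 := Nat.find hex with hn0
  have heq : φ n0 = m := by
    rcases Nat.eq_zero_or_pos n0 with h | h
    · rw [h, h0] at hf ⊢
      omega
    · have h2 := hmin (n0 - 1) (by omega)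
      have h3 := h1 (n0 - 1)
      rw [Nat.sub_add_cancel h] at h3
      omega
  have hge : N ≤ n0 := by
    by_contra h
    have := hm (show n0 ≤ N by omega)
    omega
  rw [← heq]
  exact hN n0 hge

section rates

variable {κ : ℝ}

/-- `n - ⌊κ n⌋` -/
noncomputable def phi (κ : ℝ) (n : ℕ) : ℕ := n - ⌊κ * n⌋₊

lemma floor_le (h0 : 0 ≤ κ) (h1 : κ < 1) (n : ℕ) : ⌊κ * n⌋₊ ≤ n := by
  have h2 : κ * n ≤ n := by
    have : (0 : ℝ) ≤ n := Nat.cast_nonneg n
    nlinarith
  exact (Nat.floor_le_floor h2).trans (by rw [Nat.floor_natCast])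

lemma floor_mono (h0 : 0 ≤ κ) (n : ℕ) : ⌊κ * n⌋₊ ≤ ⌊κ * (n + 1 : ℕ)⌋₊ := by
  apply Nat.floor_le_floor
  push_cast
  nlinarith

lemma floor_succ (h0 : 0 ≤ κ) (h1 : κ < 1) (n : ℕ) : ⌊κ * (n + 1 : ℕ)⌋₊ ≤ ⌊κ * n⌋₊ + 1 := by
  have h2 : κ * (n + 1 : ℕ) ≤ κ * n + 1 := by push_cast; nlinarith
  calc ⌊κ * (n + 1 : ℕ)⌋₊ ≤ ⌊κ * n + 1⌋₊ := Nat.floor_le_floor h2
    _ = _ := Nat.floor_add_one (by positivity)

lemma cast_phi (h0 : 0 ≤ κ) (h1 : κ < 1) (n : ℕ) : (phi κ n : ℝ) = n - ⌊κ * n⌋₊ := by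
  rw [phi, Nat.cast_sub (floor_le h0 h1 n)]

lemma phi_ge (h0 : 0 ≤ κ) (h1 : κ < 1) (n : ℕ) : (1 - κ) * n ≤ phi κ n := by
  rw [cast_phi h0 h1]
  have := Nat.floor_le (show 0 ≤ κ * n by positivity)
  linarith

lemma phi_le (h0 : 0 ≤ κ) (h1 : κ < 1) (n : ℕ) : (phi κ n : ℝ) ≤ (1 - κ) * n + 1 := by
  rw [cast_phi h0 h1]
  have := Nat.lt_floor_add_one (κ * n)
  linarith

lemma phi_tendsto (h0 : 0 ≤ κ) (h1 : κ < 1) : Tendsto (phi κ) atTop atTop := by
  rw [← tendsto_natCast_atTop_iff (R := ℝ)]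
  refine tendsto_atTop_mono (fun n => phi_ge h0 h1 n) ?_
  exact Tendsto.const_mul_atTop (by linarith) tendsto_natCast_atTop_atTop

lemma map_phi' (h0 : 0 ≤ κ) (h1 : κ < 1) : map (phi κ) atTop = atTop := by
  apply map_phi
  · simp [phi]
  · apply monotone_nat_of_le_succ
    intro n
    have h2 := floor_succ h0 h1 n
    have h3 := floor_le h0 h1 n
    unfold phi
    omega
  · intro n
    have h2 := floor_mono h0 n
    have h3 := floor_le h0 h1 n
    unfold phi
    omega
  · exact phi_tendsto h0 h1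

lemma phi_div (h0 : 0 ≤ κ) (h1 : κ < 1) :
    Tendsto (fun n : ℕ => (phi κ n : ℝ) / n) atTop (𝓝 (1 - κ)) := by
  have hu : Tendsto (fun n : ℕ => (1 - κ) + 1 / (n : ℝ)) atTop (𝓝 (1 - κ + 0)) :=
    tendsto_const_nhds.add tendsto_one_div_atTop_nhds_zero_nat
  rw [add_zero] at hu
  refine tendsto_of_tendsto_of_tendsto_of_le_of_le' tendsto_const_nhds hu ?_ ?_
  · filter_upwards [eventually_gt_atTop 0] with n hn
    have : (0 : ℝ) < n := by exact_mod_cast hn
    rw [le_div_iff₀ this]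
    exact phi_ge h0 h1 n
  · filter_upwards [eventually_gt_atTop 0] with n hn
    have : (0 : ℝ) < n := by exact_mod_cast hn
    rw [div_le_iff₀ this]
    refine (phi_le h0 h1 n).trans (le_of_eq ?_)
    field_simp

lemma one_le_kissing {d : ℕ} (hd : 2 ≤ d) : 1 ≤ kissing d := by
  have h := sphMax_pos hd sin_pos'
  exact_mod_cast h

lemma rate_diff {F : ℕ → ℕ} (h0 : 0 ≤ κ) (h1 : κ < 1)
    (hl : ∀ᶠ n in atTop, kissing (phi κ n) ≤ F n)
    (hu : ∀ η : ℝ, 0 < η → ∀ᶠ n : ℕ in atTop, (F n : ℝ) ≤ (2 : ℝ) ^ (η * n) * kissing (phi κ n)) :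
    Tendsto (fun n : ℕ => Real.logb 2 (F n) / n - (1 - κ) * codeRate (Real.pi / 3) (phi κ n))
      atTop (𝓝 0) := by
  set C := Real.logb 2 ((1 + 2 * Real.sin (Real.pi / 3 / 2)) / Real.sin (Real.pi / 3 / 2)) with hC
  have hu0 : ∀ d, 0 ≤ codeRate (Real.pi / 3) d := codeRate_nonneg _
  have huC : ∀ d, codeRate (Real.pi / 3) d ≤ C := codeRate_le sin_pos'
  -- first difference
  have hA : Tendsto (fun n : ℕ => ((phi κ n : ℝ) / n - (1 - κ)) * codeRate (Real.pi / 3)
      (phi κ n)) atTop (𝓝 0) := by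
    have h2 : Tendsto (fun n : ℕ => (phi κ n : ℝ) / n - (1 - κ)) atTop (𝓝 0) := by
      have := (phi_div h0 h1).sub_const (1 - κ)
      rwa [sub_self] at this
    refine h2.zero_mul_isBoundedUnder_le ?_
    refine isBoundedUnder_of ⟨C, fun n => ?_⟩
    simp only [Function.comp_apply, Real.norm_eq_abs, abs_of_nonneg (hu0 _)]
    exact huC _
  -- second difference
  have hB : Tendsto (fun n : ℕ => Real.logb 2 (F n) / n - ((phi κ n : ℝ) / n) *
      codeRate (Real.pi / 3) (phi κ n)) atTop (𝓝 0) := by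
    rw [Metric.tendsto_nhds]
    intro η hη
    filter_upwards [hl, hu (η / 2) (by positivity), eventually_gt_atTop 0,
      (phi_tendsto h0 h1).eventually_ge_atTop 4] with n h3 h3' hn hph
    have hn' : (0 : ℝ) < n := by exact_mod_cast hn
    have hp' : (0 : ℝ) < phi κ n := by exact_mod_cast (show 0 < phi κ n by omega)
    have h4 : 1 ≤ kissing (phi κ n) := one_le_kissing (by omega)
    have h4' : 1 ≤ F n := h4.trans h3
    have h4p : (0 : ℝ) < kissing (phi κ n) := by exact_mod_cast h4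
    have h5 : Real.logb 2 (kissing (phi κ n)) ≤ Real.logb 2 (F n) :=
      Real.logb_le_logb_of_le (by norm_num) h4p (by exact_mod_cast h3)
    have h5' : Real.logb 2 (F n) ≤ η / 2 * n + Real.logb 2 (kissing (phi κ n)) := by
      have h8 := Real.logb_le_logb_of_le (b := 2) (by norm_num)
        (show (0 : ℝ) < F n by exact_mod_cast h4') h3'
      rw [Real.logb_mul (by positivity) h4p.ne', Real.logb_rpow (by norm_num) (by norm_num)] at h8
      exact h8
    have h6 : ((phi κ n : ℝ) / n) * codeRate (Real.pi / 3) (phi κ n) =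
        Real.logb 2 (kissing (phi κ n)) / n := by
      unfold codeRate kissing
      field_simp
    rw [h6, Real.dist_eq, sub_zero, ← sub_div, abs_of_nonneg (div_nonneg (by linarith) hn'.le),
      div_lt_iff₀ hn']
    nlinarith
  have hAB := hB.add hA
  rw [add_zero] at hAB
  refine hAB.congr fun n => ?_
  ring

lemma le_of_diff {u v : ℕ → ℝ} (h : Tendsto (fun n => u n - v n) atTop (𝓝 0))
    (hub : IsBoundedUnder (· ≥ ·) atTop u)
    (hva : IsBoundedUnder (· ≤ ·) atTop v) (hvb : IsBoundedUnder (· ≥ ·) atTop v) :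
    limsup u atTop ≤ limsup v atTop ∧ liminf u atTop ≤ liminf v atTop := by
  constructor
  · apply le_of_forall_pos_le_add
    intro ε hε
    rw [← limsup_add_const atTop v ε hva hvb.isCoboundedUnder_le]
    refine limsup_le_limsup ?_ hub.isCoboundedUnder_le ?_
    · filter_upwards [h.eventually_lt_const hε] with n hn
      linarith
    · obtain ⟨b, hb⟩ := hva
      refine ⟨b + ε, ?_⟩
      rw [eventually_map] at hb ⊢
      filter_upwards [hb] with n hn
      linarith
  · apply le_of_forall_pos_le_add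
    intro ε hε
    rw [← liminf_add_const atTop v ε hva.isCoboundedUnder_ge hvb]
    refine liminf_le_liminf ?_ hub (IsBoundedUnder.isCoboundedUnder_ge ?_)
    · filter_upwards [h.eventually_lt_const hε] with n hn
      linarith
    · obtain ⟨b, hb⟩ := hva
      refine ⟨b + ε, ?_⟩
      rw [eventually_map] at hb ⊢
      filter_upwards [hb] with n hn
      linarith

theorem rates {F : ℕ → ℕ} (h0 : 0 ≤ κ) (h1 : κ < 1)
    (hl : ∀ᶠ n in atTop, kissing (phi κ n) ≤ F n)
    (hu : ∀ η : ℝ, 0 < η → ∀ᶠ n : ℕ in atTop, (F n : ℝ) ≤ (2 : ℝ) ^ (η * n) * kissing (phi κ n)) :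
    limsup (fun n : ℕ => Real.logb 2 (F n) / n) atTop = (1 - κ) * cplus ∧
      liminf (fun n : ℕ => Real.logb 2 (F n) / n) atTop = (1 - κ) * cminus := by
  set R : ℕ → ℝ := fun n => Real.logb 2 (F n) / n with hR
  set C := Real.logb 2 ((1 + 2 * Real.sin (Real.pi / 3 / 2)) / Real.sin (Real.pi / 3 / 2)) with hC
  have hu0 : ∀ d, 0 ≤ codeRate (Real.pi / 3) d := codeRate_nonneg _
  have huC : ∀ d, codeRate (Real.pi / 3) d ≤ C := codeRate_le sin_pos'
  have hκ : 0 < 1 - κ := by linarith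
  set w : ℕ → ℝ := fun n => (1 - κ) * codeRate (Real.pi / 3) (phi κ n) with hw
  have hwa : IsBoundedUnder (· ≤ ·) atTop w :=
    isBoundedUnder_of ⟨(1 - κ) * C, fun n => mul_le_mul_of_nonneg_left (huC _) hκ.le⟩
  have hwb : IsBoundedUnder (· ≥ ·) atTop w :=
    isBoundedUnder_of ⟨0, fun n => mul_nonneg hκ.le (hu0 _)⟩
  have hd := rate_diff h0 h1 hl hu
  have hva : IsBoundedUnder (· ≤ ·) atTop R := by
    refine ⟨(1 - κ) * C + 1, ?_⟩
    rw [eventually_map]
    filter_upwards [hd.eventually_lt_const one_pos] with n hn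
    have := mul_le_mul_of_nonneg_left (huC (phi κ n)) hκ.le
    linarith
  have hvb : IsBoundedUnder (· ≥ ·) atTop R := by
    refine ⟨-1, ?_⟩
    rw [eventually_map]
    filter_upwards [hd.eventually_const_lt (show (-1 : ℝ) < 0 by norm_num)] with n hn
    have := mul_nonneg hκ.le (hu0 (phi κ n))
    show -1 ≤ R n
    linarith
  have hd' : Tendsto (fun n => w n - R n) atTop (𝓝 0) := by
    have := hd.neg
    rw [neg_zero] at this
    refine this.congr fun n => ?_
    rw [hw]
    ring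
  obtain ⟨a1, a2⟩ := le_of_diff hd hvb hwa hwb
  obtain ⟨b1, b2⟩ := le_of_diff hd' hwb hva hvb
  have hmono : Monotone (fun x : ℝ => (1 - κ) * x) :=
    fun _ _ h => mul_le_mul_of_nonneg_left h hκ.le
  have hcont : Continuous (fun x : ℝ => (1 - κ) * x) := continuous_const.mul continuous_id
  have hub : IsBoundedUnder (· ≤ ·) atTop (codeRate (Real.pi / 3)) :=
    isBoundedUnder_of ⟨C, huC⟩
  have hlb : IsBoundedUnder (· ≥ ·) atTop (codeRate (Real.pi / 3)) :=
    isBoundedUnder_of ⟨0, hu0⟩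
  have e1 : limsup w atTop = (1 - κ) * cplus := by
    have h2 : limsup w atTop = limsup ((fun x : ℝ => (1 - κ) * x) ∘ codeRate (Real.pi / 3))
        (map (phi κ) atTop) := rfl
    rw [h2, map_phi' h0 h1]
    exact (hmono.map_limsup_of_continuousAt _ hcont.continuousAt hub
      hlb.isCoboundedUnder_le).symm
  have e2 : liminf w atTop = (1 - κ) * cminus := by
    have h2 : liminf w atTop = liminf ((fun x : ℝ => (1 - κ) * x) ∘ codeRate (Real.pi / 3))
        (map (phi κ) atTop) := rfl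
    rw [h2, map_phi' h0 h1]
    exact (hmono.map_liminf_of_continuousAt _ hcont.continuousAt
      hub.isCoboundedUnder_ge hlb).symm
  exact ⟨by rw [← e1]; exact le_antisymm a1 b1, by rw [← e2]; exact le_antisymm a2 b2⟩

end rates

end Pool.Agent.H104.Refl
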