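import Pool.Agent.H104.Refl.Family

/-! The bound for spherical codes invariant under isometries with small moved spaces. -/

open scoped InnerProductSpace
open Module

namespace Pool.Agent.H104.Refl

open Pool.Agent.H818R2 Pool.Agent.H161R2.KissSym Pool.Agent.R117.HS

variable {n : ℕ}

lemma sum_small_subsets {β : Type*} [DecidableEq β] (D : Finset β) (K : ℕ) (f : ℕ → ℕ) :
    ∑ S ∈ D.powerset.filter (fun S => S.card ≤ K), f S.card =
      ∑ k ∈ Finset.range (K + 1), D.card.choose k * f k := by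
  calc ∑ S ∈ D.powerset.filter (fun S => S.card ≤ K), f S.card
      = ∑ k ∈ Finset.range (K + 1), ∑ S ∈ D.powersetCard k, f S.card := by
        rw [Finset.sum_sigma']
        refine Finset.sum_bij' (fun S _ => ⟨S.card, S⟩) (fun p _ => p.2) ?_ ?_ ?_ ?_ ?_
        · intro S hS
          rw [Finset.mem_filter, Finset.mem_powerset] at hS
          rw [Finset.mem_sigma, Finset.mem_range, Finset.mem_powersetCard]
          exact ⟨by have := hS.2; simp only; omega, hS.1, rfl⟩
        · rintro ⟨k, S⟩ hS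
          rw [Finset.mem_sigma, Finset.mem_range, Finset.mem_powersetCard] at hS
          rw [Finset.mem_filter, Finset.mem_powerset]
          simp only at hS ⊢
          exact ⟨hS.2.1, by omega⟩
        · intro S _; rfl
        · rintro ⟨k, S⟩ hS
          rw [Finset.mem_sigma, Finset.mem_range, Finset.mem_powersetCard] at hS
          simp only at hS ⊢
          obtain ⟨_, _, rfl⟩ := hS
          rfl
        · intro S _; rfl
    _ = _ := by
        apply Finset.sum_congr rfl
        intro k _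
        rw [Finset.sum_congr rfl (g := fun _ => f k) (fun S hS => by
          rw [(Finset.mem_powersetCard.1 hS).2]), Finset.sum_const, Finset.card_powersetCard,
          smul_eq_mul]

lemma two_sin_le {θ : ℝ} {X : Finset (E n)} (hX : IsSphCode n θ X) {x y : E n} (hx : x ∈ X)
    (hy : y ∈ X) (hxy : x ≠ y) : 2 * Real.sin (θ / 2) ≤ ‖x - y‖ := by
  have h1 := hX.2 x hx y hy hxy
  rw [cos_eq] at h1
  have h2 := norm_sub_sq_real x y
  rw [hX.1 x hx, hX.1 y hy] at h2
  have h3 : (2 * Real.sin (θ / 2)) ^ 2 ≤ ‖x - y‖ ^ 2 := by rw [h2]; nlinarith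
  exact le_of_sq_le_sq h3 (norm_nonneg _)

lemma extd_lt {r : ℕ} (g : Fin r → Isom n) {i : ℕ} (h : i < r) : extd g i = g ⟨i, h⟩ := by
  unfold extd
  rw [dif_pos h]

/-- the points of `X` with small displacement and core part near a given point -/
theorem fibre {θ : ℝ} (hs : 0 < Real.sin (θ / 2)) {X : Finset (E n)} (hX : IsSphCode n θ X)
    {r : ℕ} (g0 : Fin r → Isom n) (hgX0 : ∀ i, ∀ x ∈ X, g0 i x ∈ X)
    (hf0 : finrank ℝ (fixSp (Set.range g0)) ≤ n - r) {D : ℕ} (hD0 : ∀ i, mdim (g0 i) ≤ D)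
    {W : Submodule ℝ (E n)} (hgW0 : ∀ i, ∀ z ∈ W, g0 i z ∈ W)
    {N K : ℕ} (hN : (1 + 8 / Real.sin (θ / 2)) ^ finrank ℝ W ≤ N) {α : ℝ}
    (hK : N + 1 + 4 * α / Real.sin (θ / 2) ^ 2 ≤ K)
    {c : E n} (hcW : c ∈ W) (hc1 : ‖c‖ ≤ 1) {Y : Finset (E n)} (hYX : Y ⊆ X)
    (hYc : ∀ x ∈ Y, ‖W.starProjection x - c‖ < Real.sin (θ / 2) / 4)
    (hYα0 : ∀ x ∈ Y,
      ∑ i, ‖g0 i (Wᗮ.starProjection x) - Wᗮ.starProjection x‖ ^ 2 ≤ α) :
    Y.card ≤ ∑ k ∈ Finset.range (K + 1), r.choose k * sphMax (n - r + D * k) θ := by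
  classical
  set s := Real.sin (θ / 2) with hsdef
  obtain ⟨col0, hcolN0, hcol0⟩ := exists_colour (V := W) (ρ := s / 4) (by positivity) (N := N)
    (by
      have : 2 / (s / 4) = 8 / s := by field_simp; norm_num
      rw [this]
      exact hN) (fun i => (⟨g0 i c, hgW0 i c hcW⟩ : W)) (by
      intro i
      change ‖g0 i c‖ ≤ 1
      rw [(g0 i).norm_map]
      exact hc1)
  -- sorting
  set σ := Tuple.sort col0 with hσ
  set g : Fin r → Isom n := fun i => g0 (σ i) with hg
  have hgX : ∀ i, ∀ x ∈ X, g i x ∈ X := fun i => hgX0 (σ i)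
  have hrange : Set.range g = Set.range g0 := by
    rw [hg]
    exact σ.surjective.range_comp g0
  have hf : finrank ℝ (fixSp (Set.range g)) ≤ n - r := by rw [hrange]; exact hf0
  have hD : ∀ i, mdim (g i) ≤ D := fun i => hD0 (σ i)
  have hYα : ∀ x ∈ Y, ∑ i, ‖g i (Wᗮ.starProjection x) - Wᗮ.starProjection x‖ ^ 2 ≤ α := by
    intro x hx
    have h1 := Equiv.sum_comp σ
      (fun i => ‖g0 i (Wᗮ.starProjection x) - Wᗮ.starProjection x‖ ^ 2)
    have h2 := hYα0 x hx
    rw [← h1] at h2
    exact h2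
  have hmono : Monotone (col0 ∘ σ) := Tuple.monotone_sort col0
  set col : ℕ → ℕ := fun i => if h : i < r then col0 (σ ⟨i, h⟩) else 0 with hcol
  have hcollt : ∀ i (h : i < r), col i = col0 (σ ⟨i, h⟩) := fun i h => by
    rw [hcol]; simp only [dif_pos h]
  have hcolm : ∀ i j, i ≤ j → j < r → col i ≤ col j := by
    intro i j hij hj
    rw [hcollt i (by omega), hcollt j hj]
    exact hmono (show (⟨i, by omega⟩ : Fin r) ≤ ⟨j, hj⟩ from hij)
  have hcolN : ∀ i, i < r → col i < N := by
    intro i hi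
    rw [hcollt i hi]
    exact hcolN0 _
  have hcoleq : ∀ i j (hi : i < r) (hj : j < r), col i = col j →
      ‖g ⟨i, hi⟩ c - g ⟨j, hj⟩ c‖ < s / 2 := by
    intro i j hi hj hij
    rw [hcollt i hi, hcollt j hj] at hij
    have := hcol0 _ _ hij
    calc ‖g ⟨i, hi⟩ c - g ⟨j, hj⟩ c‖ < 2 * (s / 4) := this
      _ = s / 2 := by ring
  -- the set of bad indices
  set S : E n → Finset ℕ := fun x =>
    (Finset.range r).filter (fun i => extd g i x ≠ extd g (i + 1) x) with hS
  have hScard : ∀ x ∈ Y, (S x).card ≤ K := by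
    intro x hx
    set y := Wᗮ.starProjection x with hy
    set a : ℕ → ℝ := fun i => ‖extd g i y - y‖ ^ 2 with ha
    have hasum : ∑ i ∈ Finset.range r, a i ≤ α := by
      rw [Finset.sum_range]
      refine le_trans (le_of_eq ?_) (hYα x hx)
      apply Finset.sum_congr rfl
      intro i _
      rw [ha]
      simp only
      rw [extd_lt g i.2]
    set J := (Finset.range r).filter (fun i => i + 1 < r ∧ col i ≠ col (i + 1)) with hJ
    set M := (Finset.range r).filter (fun i => i + 1 < r ∧ col i = col (i + 1) ∧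
      extd g i x ≠ extd g (i + 1) x) with hM
    have hsub : S x ⊆ J ∪ {r - 1} ∪ M := by
      intro i hi
      rw [hS, Finset.mem_filter, Finset.mem_range] at hi
      rw [Finset.mem_union, Finset.mem_union, Finset.mem_singleton, hJ, hM, Finset.mem_filter,
        Finset.mem_filter, Finset.mem_range]
      by_cases h1 : i + 1 < r
      · by_cases h2 : col i = col (i + 1)
        · exact Or.inr ⟨hi.1, h1, h2, hi.2⟩
        · exact Or.inl (Or.inl ⟨hi.1, h1, h2⟩)
      · exact Or.inl (Or.inr (by omega))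
    have hJc : J.card ≤ N := card_jumps hcolm hcolN
    have hMa : ∀ i ∈ M, s ^ 2 / 2 ≤ a i + a (i + 1) := by
      intro i hi
      rw [hM, Finset.mem_filter, Finset.mem_range] at hi
      obtain ⟨hir, hi1, hceq, hne⟩ := hi
      rw [extd_lt g hir, extd_lt g hi1] at hne
      have h1 := two_sin_le hX (hgX ⟨i, hir⟩ x (hYX hx)) (hgX ⟨i + 1, hi1⟩ x (hYX hx)) hne
      rw [← hsdef] at h1
      have h2 := hcoleq i (i + 1) hir hi1 hceq
      have h3 := hYc x hx
      set p := W.starProjection x with hp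
      have hxpy : x = p + y := by
        rw [hp, hy, Submodule.starProjection_orthogonal_val]
        abel
      have h4 : g ⟨i, hir⟩ x - g ⟨i + 1, hi1⟩ x =
          (g ⟨i, hir⟩ c - g ⟨i + 1, hi1⟩ c) + (g ⟨i, hir⟩ (p - c) - g ⟨i + 1, hi1⟩ (p - c)) +
          ((g ⟨i, hir⟩ y - y) - (g ⟨i + 1, hi1⟩ y - y)) := by
        conv_lhs => rw [hxpy]
        simp only [map_add, map_sub]
        abel
      have h5 : ‖g ⟨i, hir⟩ x - g ⟨i + 1, hi1⟩ x‖ ≤ ‖g ⟨i, hir⟩ c - g ⟨i + 1, hi1⟩ c‖ +
          (‖p - c‖ + ‖p - c‖) + (‖g ⟨i, hir⟩ y - y‖ + ‖g ⟨i + 1, hi1⟩ y - y‖) := by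
        rw [h4]
        refine (norm_add_le _ _).trans (add_le_add ((norm_add_le _ _).trans
          (add_le_add le_rfl ?_)) (norm_sub_le _ _))
        refine (norm_sub_le _ _).trans (le_of_eq ?_)
        rw [(g ⟨i, hir⟩).norm_map, (g ⟨i + 1, hi1⟩).norm_map]
      have h6 : s ≤ ‖g ⟨i, hir⟩ y - y‖ + ‖g ⟨i + 1, hi1⟩ y - y‖ := by linarith
      rw [ha]
      simp only
      rw [extd_lt g hir, extd_lt g hi1]
      nlinarith [sq_nonneg (‖g ⟨i, hir⟩ y - y‖ - ‖g ⟨i + 1, hi1⟩ y - y‖), hs,
        norm_nonneg (g ⟨i, hir⟩ y - y), norm_nonneg (g ⟨i + 1, hi1⟩ y - y)]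
    have hMc : (M.card : ℝ) ≤ 4 * α / s ^ 2 := by
      have h1 : (M.card : ℝ) * (s ^ 2 / 2) ≤ ∑ i ∈ M, (a i + a (i + 1)) := by
        rw [← nsmul_eq_mul]
        exact Finset.card_nsmul_le_sum _ _ _ hMa
      have hnn : ∀ i, 0 ≤ a i := fun i => sq_nonneg _
      have h2 : ∑ i ∈ M, a i ≤ ∑ i ∈ Finset.range r, a i :=
        Finset.sum_le_sum_of_subset_of_nonneg (Finset.filter_subset _ _) fun i _ _ => hnn i
      have h3 : ∑ i ∈ M, a (i + 1) ≤ ∑ i ∈ Finset.range r, a i := by
        have h4 : ∑ i ∈ M, a (i + 1) = ∑ j ∈ M.image (fun i => i + 1), a j := by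
          rw [Finset.sum_image (fun x _ y _ h => by simpa using h)]
        rw [h4]
        apply Finset.sum_le_sum_of_subset_of_nonneg _ fun i _ _ => hnn i
        intro j hj
        obtain ⟨i, hi, rfl⟩ := Finset.mem_image.1 hj
        rw [hM, Finset.mem_filter] at hi
        exact Finset.mem_range.2 hi.2.1
      rw [Finset.sum_add_distrib] at h1
      rw [le_div_iff₀ (by positivity)]
      nlinarith
    have h7 : (S x).card ≤ N + 1 + M.card := by
      calc (S x).card ≤ (J ∪ {r - 1} ∪ M).card := Finset.card_le_card hsub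
        _ ≤ (J ∪ {r - 1}).card + M.card := Finset.card_union_le _ _
        _ ≤ J.card + 1 + M.card := by
            have := Finset.card_union_le J {r - 1}
            rw [Finset.card_singleton] at this
            omega
        _ ≤ _ := by omega
    have h8 : ((S x).card : ℝ) ≤ K := by
      have : ((S x).card : ℝ) ≤ N + 1 + M.card := by exact_mod_cast h7
      linarith
    exact_mod_cast h8
  have hSmem : ∀ x ∈ Y, x ∈ agree (extd g) (Finset.range r \ S x) := by
    intro x _
    rw [mem_agree]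
    intro i hi
    rw [Finset.mem_sdiff] at hi
    by_contra hne
    exact hi.2 (Finset.mem_filter.2 ⟨hi.1, hne⟩)
  -- the count
  have hcover : Y ⊆ ((Finset.range r).powerset.filter (fun T => T.card ≤ K)).biUnion
      (fun T => Y.filter (fun x => x ∈ agree (extd g) (Finset.range r \ T))) := by
    intro x hx
    rw [Finset.mem_biUnion]
    refine ⟨S x, ?_, ?_⟩
    · rw [Finset.mem_filter, Finset.mem_powerset]
      exact ⟨Finset.filter_subset _ _, hScard x hx⟩
    · rw [Finset.mem_filter]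
      exact ⟨hx, hSmem x hx⟩
  have hsub : ∀ T ∈ (Finset.range r).powerset.filter (fun T => T.card ≤ K),
      (Y.filter (fun x => x ∈ agree (extd g) (Finset.range r \ T))).card ≤
        sphMax (n - r + D * T.card) θ := by
    intro T hT
    rw [Finset.mem_filter, Finset.mem_powerset] at hT
    refine (card_le_sub hs _ (X := Y.filter (fun x => x ∈ agree (extd g) (Finset.range r \ T)))
      ?_ ?_).trans (sphMax_mono hs (finrank_agree g hf hD hT.1))
    · exact ⟨fun x hx => hX.1 x (hYX (Finset.mem_of_mem_filter x hx)), fun x hx y hy =>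
        hX.2 x (hYX (Finset.mem_of_mem_filter x hx)) y (hYX (Finset.mem_of_mem_filter y hy))⟩
    · intro x hx
      exact (Finset.mem_filter.1 hx).2
  calc Y.card ≤ _ := Finset.card_le_card hcover
    _ ≤ ∑ T ∈ (Finset.range r).powerset.filter (fun T => T.card ≤ K),
        (Y.filter (fun x => x ∈ agree (extd g) (Finset.range r \ T))).card :=
        Finset.card_biUnion_le
    _ ≤ ∑ T ∈ (Finset.range r).powerset.filter (fun T => T.card ≤ K),
        sphMax (n - r + D * T.card) θ := Finset.sum_le_sum hsub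
    _ = _ := by
        rw [sum_small_subsets (Finset.range r) K (fun k => sphMax (n - r + D * k) θ),
          Finset.card_range]

/-- **the explicit bound** -/
theorem core {θ : ℝ} (hs : 0 < Real.sin (θ / 2)) {X : Finset (E n)} (hX : IsSphCode n θ X)
    {G : Set (Isom n)} (hGX : ∀ g ∈ G, ∀ x ∈ X, g x ∈ X) {D : ℕ} (hGD : ∀ g ∈ G, mdim g ≤ D)
    {w N K : ℕ} (hw : 0 < w) {α : ℝ} (hα : 0 < α)
    (h1 : 8 * D * ((n - finrank ℝ (fixSp G) : ℕ) : ℝ) ≤ α * w)
    (hN : (1 + 8 / Real.sin (θ / 2)) ^ w ≤ N)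
    (hK : N + 1 + 4 * α / Real.sin (θ / 2) ^ 2 ≤ K) :
    X.card ≤ 2 * (N * ∑ k ∈ Finset.range (K + 1), (n - finrank ℝ (fixSp G)).choose k *
      sphMax (finrank ℝ (fixSp G) + D * k) θ) := by
  classical
  set f := finrank ℝ (fixSp G) with hfdef
  set r := n - f with hr
  have hfn : f ≤ n := fix_le G
  rcases Finset.eq_empty_or_nonempty X with hXe | hXne
  · rw [hXe]; simp
  have hXc : (0 : ℝ) < X.card := by exact_mod_cast Finset.card_pos.2 hXne
  have hw' : (0 : ℝ) < w := by exact_mod_cast hw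
  set t : ℝ := X.card / w with ht
  have htpos : 0 < t := by positivity
  obtain ⟨W, hW1, hW2, hW3⟩ := exists_core hX.1 htpos
  have hWw : finrank ℝ W ≤ w := by
    have h2 : (finrank ℝ W : ℝ) ≤ w := by
      rw [ht] at hW1
      have h3 : (finrank ℝ W : ℝ) * (X.card / w) = (finrank ℝ W / w) * X.card := by ring
      rw [h3] at hW1
      have h4 : (finrank ℝ W : ℝ) / w ≤ 1 := by
        by_contra h
        push Not at h
        nlinarith
      rwa [div_le_one hw'] at h4
    exact_mod_cast h2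
  obtain ⟨g, hgG, hgf⟩ := exists_family G r le_rfl
  set A : E n → ℝ := fun x =>
    ∑ i, ‖g i (Wᗮ.starProjection x) - Wᗮ.starProjection x‖ ^ 2 with hA
  have hA0 : ∀ x, 0 ≤ A x := fun x => Finset.sum_nonneg fun i _ => sq_nonneg _
  have hAsum : ∑ x ∈ X, A x ≤ α * X.card / 2 := by
    calc ∑ x ∈ X, A x = ∑ i, ∑ x ∈ X,
          ‖g i (Wᗮ.starProjection x) - Wᗮ.starProjection x‖ ^ 2 := Finset.sum_comm
      _ ≤ ∑ i : Fin r, 4 * D * t :=
          Finset.sum_le_sum fun i _ => displacement htpos.le hW3 (hGD _ (hgG i))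
      _ = (8 * D * r) * (X.card / w) / 2 := by simp [ht]; ring
      _ ≤ (α * w) * (X.card / w) / 2 := by
          apply div_le_div_of_nonneg_right _ (by norm_num)
          exact mul_le_mul_of_nonneg_right h1 (by positivity)
      _ = α * X.card / 2 := by field_simp
  set X1 := X.filter (fun x => A x ≤ α) with hX1
  have hhalf : X.card ≤ 2 * X1.card := by
    have h2 : X1.card + (X.filter (fun x => ¬ A x ≤ α)).card = X.card :=
      Finset.card_filter_add_card_filter_not _
    set B := X.filter (fun x => ¬ A x ≤ α) with hB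
    have h3 : (B.card : ℝ) * α ≤ ∑ x ∈ B, A x := by
      rw [← nsmul_eq_mul]
      exact Finset.card_nsmul_le_sum _ _ _ fun x hx => (not_le.1 (Finset.mem_filter.1 hx).2).le
    have h4 : ∑ x ∈ B, A x ≤ ∑ x ∈ X, A x :=
      Finset.sum_le_sum_of_subset_of_nonneg (Finset.filter_subset _ _) fun x _ _ => hA0 x
    have h5 : (B.card : ℝ) * α ≤ (X.card / 2) * α := by linarith
    have h6 : (B.card : ℝ) ≤ X.card / 2 := le_of_mul_le_mul_right h5 hα
    have h7 : (X1.card : ℝ) + B.card = X.card := by exact_mod_cast h2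
    have h8 : (X.card : ℝ) ≤ 2 * X1.card := by linarith
    exact_mod_cast h8
  have hNW : (1 + 8 / Real.sin (θ / 2)) ^ finrank ℝ W ≤ (N : ℝ) := by
    refine le_trans (pow_le_pow_right₀ ?_ hWw) hN
    have : 0 < 8 / Real.sin (θ / 2) := by positivity
    linarith
  -- the net in the core
  obtain ⟨T, hTY, hTN, hTnet⟩ := exists_net (V := W) (ρ := Real.sin (θ / 2) / 4) (by positivity)
    (N := N) (by
      have : 2 / (Real.sin (θ / 2) / 4) = 8 / Real.sin (θ / 2) := by field_simp; norm_num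
      rw [this]
      exact hNW) (X1.image (fun x => W.orthogonalProjectionOnto x)) (by
      intro y hy
      obtain ⟨x, hx, rfl⟩ := Finset.mem_image.1 hy
      have h2 := Submodule.norm_starProjection_apply_le W x
      rw [hX.1 x (Finset.mem_of_mem_filter x hx)] at h2
      exact h2)
  have hT1 : ∀ c ∈ T, ‖(c : E n)‖ ≤ 1 := by
    intro c hc
    obtain ⟨x, hx, rfl⟩ := Finset.mem_image.1 (hTY hc)
    have h2 := Submodule.norm_starProjection_apply_le W x
    rw [hX.1 x (Finset.mem_of_mem_filter x hx)] at h2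
    exact h2
  set Bd := ∑ k ∈ Finset.range (K + 1), r.choose k * sphMax (f + D * k) θ with hBd
  have hcov : X1 ⊆ T.biUnion (fun c => X1.filter (fun x =>
      ‖W.starProjection x - (c : E n)‖ < Real.sin (θ / 2) / 4)) := by
    intro x hx
    obtain ⟨c, hc, hd⟩ := hTnet _ (Finset.mem_image_of_mem _ hx)
    rw [Finset.mem_biUnion]
    exact ⟨c, hc, Finset.mem_filter.2 ⟨hx, hd⟩⟩
  have hfib : ∀ c ∈ T, (X1.filter (fun x =>
      ‖W.starProjection x - (c : E n)‖ < Real.sin (θ / 2) / 4)).card ≤ Bd := by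
    intro c hc
    have h2 := fibre hs hX g (fun i => hGX _ (hgG i)) hgf (fun i => hGD _ (hgG i))
      (fun i => hW2 _ (hGX _ (hgG i))) hNW hK (c := (c : E n)) c.2 (hT1 c hc)
      (Y := X1.filter (fun x => ‖W.starProjection x - (c : E n)‖ < Real.sin (θ / 2) / 4))
      ((Finset.filter_subset _ _).trans (Finset.filter_subset _ _))
      (fun x hx => (Finset.mem_filter.1 hx).2)
      (fun x hx => (Finset.mem_filter.1 (Finset.mem_of_mem_filter x hx)).2)
    have h3 : n - r = f := by omega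
    rw [h3] at h2
    exact h2
  calc X.card ≤ 2 * X1.card := hhalf
    _ ≤ 2 * (N * Bd) := by
        apply Nat.mul_le_mul_left
        calc X1.card ≤ _ := Finset.card_le_card hcov
          _ ≤ ∑ c ∈ T, _ := Finset.card_biUnion_le
          _ ≤ ∑ c ∈ T, Bd := Finset.sum_le_sum hfib
          _ = T.card * Bd := by simp
          _ ≤ N * Bd := Nat.mul_le_mul_right _ hTN

end Pool.Agent.H104.Refl
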