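import Pool.Graph.R_seed8.H818R2.KissDefs

/-! Definitions for MP_b5f63d_co.LocalSymmetries. -/

open scoped InnerProductSpace
open Filter

namespace Pool.Agent.H104.Refl

open Pool.Agent.H818R2

variable {n : ℕ}

/-- the linear isometries of `ℝⁿ` onto itself -/
abbrev Iso (n : ℕ) := EuclideanSpace ℝ (Fin n) ≃ₗᵢ[ℝ] EuclideanSpace ℝ (Fin n)

/-- the space of the vectors which are fixed by all `g ∈ G` -/
def fixedSpace (G : Set (Iso n)) : Submodule ℝ (EuclideanSpace ℝ (Fin n)) where
  carrier := {z | ∀ g ∈ G, g z = z}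
  add_mem' := fun ha hb g hg => by rw [map_add, ha g hg, hb g hg]
  zero_mem' := fun g _ => map_zero g
  smul_mem' := fun c _ ha g hg => by rw [map_smul, ha g hg]

/-- the dimension of the space of the vectors which are fixed by all `g ∈ G` -/
noncomputable def fixDim (G : Set (Iso n)) : ℕ := Module.finrank ℝ (fixedSpace G)

/-- each isometry `g ∈ G` maps `X` into itself, and the space of the vectors fixed by `g` has
codimension at most `D` -/
def LocalSym (D : ℕ) (G : Set (Iso n)) (X : Finset (EuclideanSpace ℝ (Fin n))) : Prop :=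
  ∀ g ∈ G, n ≤ fixDim {g} + D ∧ ∀ x ∈ X, g x ∈ X

/-- the largest size of a kissing configuration `X` of `ℝⁿ` for which there is a set `G` of
isometries with `LocalSym D G X` and with a common fixed space of dimension `m` -/
noncomputable def symKiss (D n m : ℕ) : ℕ :=
  sSup {N | ∃ (G : Set (Iso n)) (X : Finset (EuclideanSpace ℝ (Fin n))),
    IsSphCode n (Real.pi / 3) X ∧ LocalSym D G X ∧ fixDim G = m ∧ X.card = N}

/-- `c_- = liminf log_2 τ(d) / d` -/
noncomputable def cminus : ℝ := liminf (fun d : ℕ => Real.logb 2 (kissing d) / d) atTop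

/-- `c_+ = limsup log_2 τ(d) / d` -/
noncomputable def cplus : ℝ := limsup (fun d : ℕ => Real.logb 2 (kissing d) / d) atTop

/-- `X` is invariant under the reflections in the hyperplanes orthogonal to the members of `R`,
which are unit vectors -/
def ReflInv (R : Set (EuclideanSpace ℝ (Fin n))) (X : Finset (EuclideanSpace ℝ (Fin n))) : Prop :=
  ∀ a ∈ R, ‖a‖ = 1 ∧ ∀ x ∈ X, x - (2 * ⟪a, x⟫_ℝ) • a ∈ X

end Pool.Agent.H104.Refl
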