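import Pool.Agent.H104.Refl.Simple
import Pool.Agent.H104.Refl.Defs
import Pool.Graph.R_seed8.H161R2.KissSym2

/-! Spherical codes invariant under reflections: the bound. -/

open scoped InnerProductSpace

namespace Pool.Agent.H104.Refl

open Pool.Agent.H818R2 Pool.Agent.H161R2.KissSym

variable {n : ℕ}

/-- a spherical code invariant under reflections -/
theorem card_le_refl {θ : ℝ} (hs : 0 < Real.sin (θ / 2)) {K : ℕ}
    (hK : 2 ≤ (K + 1) * Real.sin (θ / 2) ^ 2) {R : Set (EuclideanSpace ℝ (Fin n))}
    {X : Finset (EuclideanSpace ℝ (Fin n))} (hX : IsSphCode n θ X) (hR : ReflInv R X)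
    {r : ℕ} (hr : Module.finrank ℝ (Submodule.span ℝ R) = r) :
    X.card ≤ ∑ k ∈ Finset.range (K + 1), r.choose k * sphMax (n - r + k) θ := by
  classical
  set s := Real.sin (θ / 2) with hsdef
  set R1 : Set (EuclideanSpace ℝ (Fin n)) := {a ∈ R | ∃ x ∈ X, ⟪a, x⟫_ℝ ≠ 0} with hR1
  set R2 : Set (EuclideanSpace ℝ (Fin n)) := {a ∈ R | ∀ x ∈ X, ⟪a, x⟫_ℝ = 0} with hR2
  have h1 : ∀ a ∈ R1, ‖a‖ = 1 := fun a ha => (hR a ha.1).1
  have h2 : ∀ a ∈ R1, ∀ x ∈ X, refl a x ∈ X := fun a ha => (hR a ha.1).2
  have h3 : ∀ a ∈ R1, ∃ x ∈ X, ⟪a, x⟫_ℝ ≠ 0 := fun a ha => ha.2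
  have hfin := roots_finite h1 h2 h3
  set Φ : Finset (EuclideanSpace ℝ (Fin n)) := hfin.toFinset with hΦ
  have hΦm : ∀ a, a ∈ Φ ↔ Root R1 a := fun a => by rw [hΦ, Set.Finite.mem_toFinset]; rfl
  obtain ⟨f, D0, hDΦ, hfD, hob, hspan⟩ := exists_simple (Φ := Φ)
    (fun a ha => Root.norm_eq h1 ((hΦm a).1 ha))
    (fun a ha b hb => (hΦm _).2 (Root.step ((hΦm a).1 ha) ((hΦm b).1 hb)))
  -- a basis
  obtain ⟨B, hBD, hBs, hBli⟩ := exists_linearIndependent ℝ (D0 : Set (EuclideanSpace ℝ (Fin n)))
  set D : Finset (EuclideanSpace ℝ (Fin n)) := (D0.finite_toSet.subset hBD).toFinset with hD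
  have hDm : ∀ a, a ∈ D ↔ a ∈ B := fun a => by rw [hD, Set.Finite.mem_toFinset]
  have hDc : (D : Set (EuclideanSpace ℝ (Fin n))) = B := by ext a; exact hDm a
  have hDD0 : D ⊆ D0 := fun a ha => by exact_mod_cast hBD ((hDm a).1 ha)
  have hRΦ : Submodule.span ℝ (Φ : Set (EuclideanSpace ℝ (Fin n))) = Submodule.span ℝ R1 := by
    apply le_antisymm
    · rw [Submodule.span_le]
      intro a ha
      exact Root.mem_span ((hΦm a).1 ha)
    · apply Submodule.span_mono
      intro a ha
      exact (hΦm a).2 (Root.base ha)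
  have hspanD : Submodule.span ℝ (D : Set (EuclideanSpace ℝ (Fin n))) = Submodule.span ℝ R1 := by
    rw [hDc, hBs, hspan, hRΦ]
  have hunion : R = R1 ∪ R2 := by
    ext a
    constructor
    · intro ha
      by_cases h : ∃ x ∈ X, ⟪a, x⟫_ℝ ≠ 0
      · exact Or.inl ⟨ha, h⟩
      · push Not at h
        exact Or.inr ⟨ha, h⟩
    · rintro (h | h) <;> exact h.1
  have hDr : D.card ≤ r := by
    have h4 : Module.finrank ℝ (Submodule.span ℝ (D : Set (EuclideanSpace ℝ (Fin n)))) = D.card :=
      finrank_span_finset_eq_card (by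
        have : LinearIndependent ℝ (fun x : (D : Set (EuclideanSpace ℝ (Fin n))) =>
            (x : EuclideanSpace ℝ (Fin n))) := by
          rw [hDc]; exact hBli
        exact this)
    rw [← h4, hspanD, ← hr]
    apply Submodule.finrank_mono
    apply Submodule.span_mono
    rw [hunion]
    exact Set.subset_union_left
  -- the spaces
  set L : Finset (EuclideanSpace ℝ (Fin n)) → Submodule ℝ (EuclideanSpace ℝ (Fin n)) :=
    fun S => (Submodule.span ℝ ((D \ S : Finset (EuclideanSpace ℝ (Fin n))) :
      Set (EuclideanSpace ℝ (Fin n))) ⊔ Submodule.span ℝ R2)ᗮ with hL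
  have hLdim : ∀ S ⊆ D, Module.finrank ℝ (L S) ≤ n - r + S.card := by
    intro S hS
    set U := Submodule.span ℝ ((D \ S : Finset (EuclideanSpace ℝ (Fin n))) :
      Set (EuclideanSpace ℝ (Fin n))) ⊔ Submodule.span ℝ R2 with hU
    have h5 : Submodule.span ℝ R ≤
        Submodule.span ℝ (S : Set (EuclideanSpace ℝ (Fin n))) ⊔ U := by
      rw [hunion, Submodule.span_union, hU, ← sup_assoc]
      apply sup_le_sup_right
      rw [← hspanD, ← Submodule.span_union]
      apply Submodule.span_mono
      intro a ha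
      by_cases h : a ∈ S
      · exact Or.inl h
      · exact Or.inr (by
          rw [Finset.mem_coe, Finset.mem_sdiff]
          exact ⟨ha, h⟩)
    have h6 : r ≤ S.card + Module.finrank ℝ U := by
      rw [← hr]
      calc Module.finrank ℝ (Submodule.span ℝ R) ≤
          Module.finrank ℝ ↥(Submodule.span ℝ (S : Set (EuclideanSpace ℝ (Fin n))) ⊔ U) :=
            Submodule.finrank_mono h5
        _ ≤ Module.finrank ℝ (Submodule.span ℝ (S : Set (EuclideanSpace ℝ (Fin n)))) +
            Module.finrank ℝ U := Submodule.finrank_add_le_finrank_add_finrank _ _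
        _ ≤ S.card + Module.finrank ℝ U := by
            have h8 : Module.finrank ℝ (Submodule.span ℝ (S : Set (EuclideanSpace ℝ (Fin n)))) ≤
              S.card := finrank_span_finset_le_card (R := ℝ) S
            omega
    have h7 := Submodule.finrank_add_finrank_orthogonal U
    rw [finrank_euclideanSpace_fin] at h7
    change Module.finrank ℝ ↥Uᗮ ≤ n - r + S.card
    omega
  -- the support of a point
  have hsupp : ∀ x ∈ X, (D.filter (fun a => ⟪a, x⟫_ℝ ≠ 0)).card ≤ K ∧
      x ∈ L (D.filter (fun a => ⟪a, x⟫_ℝ ≠ 0)) := by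
    intro x hx
    set S := D.filter (fun a => ⟪a, x⟫_ℝ ≠ 0) with hS
    constructor
    · rcases S.eq_empty_or_nonempty with h | hne
      · rw [h]; simp
      · have hroot : ∀ a ∈ S, Root R1 a := fun a ha =>
          (hΦm a).1 (hDΦ (hDD0 (Finset.mem_of_mem_filter a ha)))
        have hlarge : ∀ a ∈ S, s ≤ |⟪a, x⟫_ℝ| := by
          intro a ha
          have hax := (Finset.mem_filter.1 ha).2
          have hn := Root.norm_eq h1 (hroot a ha)
          have hy := Root.inv h1 h2 (hroot a ha) x hx
          have hne' : x ≠ refl a x := by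
            intro h
            have h8 : (2 * ⟪a, x⟫_ℝ) • a = 0 := by
              have : x - refl a x = (2 * ⟪a, x⟫_ℝ) • a := by simp [refl]
              rw [← this, ← h, sub_self]
            rcases smul_eq_zero.1 h8 with h9 | h9
            · exact hax (by linarith)
            · rw [h9, norm_zero] at hn
              norm_num at hn
          have h8 := hX.2 x hx _ hy hne'
          rw [cos_eq, ← hsdef] at h8
          simp only [refl, inner_sub_right, inner_smul_right] at h8
          rw [real_inner_self_eq_norm_sq, hX.1 x hx, real_inner_comm a x] at h8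
          have h9 : s ^ 2 ≤ ⟪a, x⟫_ℝ ^ 2 := by
            nlinarith
          rw [← sq_abs ⟪a, x⟫_ℝ] at h9
          exact le_of_sq_le_sq h9 (abs_nonneg _)
        have h10 := few_simple (f := f) (S := S)
          (fun a ha => Root.norm_eq h1 (hroot a ha))
          (fun a ha => hfD a (hDD0 (Finset.mem_of_mem_filter a ha)))
          (fun a ha b hb => hob a (hDD0 (Finset.mem_of_mem_filter a ha)) b
            (hDD0 (Finset.mem_of_mem_filter b hb)))
          (hX.1 x hx) hs hlarge hne
        have h11 : (S.card : ℝ) * s ^ 2 < (K + 1) * s ^ 2 := by linarith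
        have h12 : (S.card : ℝ) < K + 1 := lt_of_mul_lt_mul_right h11 (by positivity)
        have h13 : S.card < K + 1 := by exact_mod_cast h12
        omega
    · change x ∈ (Submodule.span ℝ ((D \ S : Finset (EuclideanSpace ℝ (Fin n))) :
        Set (EuclideanSpace ℝ (Fin n))) ⊔ Submodule.span ℝ R2)ᗮ
      rw [← Submodule.span_union, Submodule.mem_orthogonal]
      intro u hu
      induction hu using Submodule.span_induction with
      | mem a ha =>
        rcases ha with ha | ha
        · rw [Finset.mem_coe, Finset.mem_sdiff, hS, Finset.mem_filter, not_and_not_right] at ha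
          exact ha.2 ha.1
        · exact ha.2 x hx
      | zero => exact inner_zero_left _
      | add a b _ _ iha ihb => rw [inner_add_left, iha, ihb, add_zero]
      | smul c a _ iha => rw [inner_smul_left, iha, mul_zero]
  -- the count
  have hcover : X ⊆ (D.powerset.filter (fun S => S.card ≤ K)).biUnion
      (fun S => X.filter (fun x => x ∈ L S)) := by
    intro x hx
    rw [Finset.mem_biUnion]
    refine ⟨D.filter (fun a => ⟪a, x⟫_ℝ ≠ 0), ?_, ?_⟩
    · rw [Finset.mem_filter, Finset.mem_powerset]
      exact ⟨Finset.filter_subset _ _, (hsupp x hx).1⟩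
    · rw [Finset.mem_filter]
      exact ⟨hx, (hsupp x hx).2⟩
  have hsub : ∀ S ∈ D.powerset.filter (fun S => S.card ≤ K),
      (X.filter (fun x => x ∈ L S)).card ≤ sphMax (n - r + S.card) θ := by
    intro S hS
    rw [Finset.mem_filter, Finset.mem_powerset] at hS
    refine (card_le_sub hs (L S) (X := X.filter (fun x => x ∈ L S)) ?_ ?_).trans
      (sphMax_mono hs (hLdim S hS.1))
    · exact ⟨fun x hx => hX.1 x (Finset.mem_of_mem_filter x hx), fun x hx y hy =>
        hX.2 x (Finset.mem_of_mem_filter x hx) y (Finset.mem_of_mem_filter y hy)⟩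
    · intro x hx
      exact (Finset.mem_filter.1 hx).2
  calc X.card ≤ _ := Finset.card_le_card hcover
    _ ≤ ∑ S ∈ D.powerset.filter (fun S => S.card ≤ K),
        (X.filter (fun x => x ∈ L S)).card := Finset.card_biUnion_le
    _ ≤ ∑ S ∈ D.powerset.filter (fun S => S.card ≤ K), sphMax (n - r + S.card) θ :=
        Finset.sum_le_sum hsub
    _ = ∑ k ∈ Finset.range (K + 1), ∑ S ∈ D.powersetCard k, sphMax (n - r + S.card) θ := by
        rw [Finset.sum_sigma']
        refine Finset.sum_bij' (fun S _ => ⟨S.card, S⟩) (fun p _ => p.2) ?_ ?_ ?_ ?_ ?_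
        · intro S hS
          rw [Finset.mem_filter, Finset.mem_powerset] at hS
          rw [Finset.mem_sigma, Finset.mem_range, Finset.mem_powersetCard]
          exact ⟨by have := hS.2; simp only; omega, hS.1, rfl⟩
        · rintro ⟨k, S⟩ hS
          rw [Finset.mem_sigma, Finset.mem_range, Finset.mem_powersetCard] at hS
          rw [Finset.mem_filter, Finset.mem_powerset]
          simp only at hS ⊢
          exact ⟨hS.2.1, by omega⟩
        · intro S _; rfl
        · rintro ⟨k, S⟩ hS
          rw [Finset.mem_sigma, Finset.mem_range, Finset.mem_powersetCard] at hS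
          simp only at hS ⊢
          obtain ⟨_, _, rfl⟩ := hS
          rfl
        · intro S _; rfl
    _ = ∑ k ∈ Finset.range (K + 1), D.card.choose k * sphMax (n - r + k) θ := by
        apply Finset.sum_congr rfl
        intro k _
        rw [Finset.sum_congr rfl (g := fun _ => sphMax (n - r + k) θ) (fun S hS => by
          rw [(Finset.mem_powersetCard.1 hS).2]), Finset.sum_const, Finset.card_powersetCard,
          smul_eq_mul]
    _ ≤ _ := Finset.sum_le_sum fun k _ =>
        Nat.mul_le_mul_right _ (Nat.choose_le_choose k hDr)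

end Pool.Agent.H104.Refl
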