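import Pool.Agent.H104.Refl.Inertia

/-! Families of isometries: fixed spaces, spaces of agreement, nets. -/

open scoped InnerProductSpace
open Module

namespace Pool.Agent.H104.Refl

open Pool.Agent.H818R2 Pool.Agent.H161R2.KissSym Pool.Agent.R117.HS

variable {n : ℕ}

lemma finrank_inf (A K : Submodule ℝ (E n)) :
    finrank ℝ A ≤ finrank ℝ (A ⊓ K : Submodule ℝ (E n)) + (n - finrank ℝ K) := by
  have h1 := Submodule.finrank_sup_add_finrank_inf_eq A K
  have h2 : finrank ℝ (A ⊔ K : Submodule ℝ (E n)) ≤ n := by
    have := (A ⊔ K).finrank_le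
    rwa [finrank_euclideanSpace_fin] at this
  have h3 : finrank ℝ K ≤ n := by
    have := K.finrank_le
    rwa [finrank_euclideanSpace_fin] at this
  omega

lemma finrank_ker_dif (g : Isom n) : finrank ℝ (LinearMap.ker (dif g)) + mdim g = n := by
  have h := (LinearMap.ker (dif g)).finrank_add_finrank_orthogonal
  rw [finrank_euclideanSpace_fin] at h
  exact h

lemma mem_ker_dif {g : Isom n} {z : E n} : z ∈ LinearMap.ker (dif g) ↔ g z = z := by
  rw [LinearMap.mem_ker, dif_apply, sub_eq_zero]

/-- a family of `k` members of `G` with small common fixed space -/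
theorem exists_family (G : Set (Isom n)) : ∀ k ≤ n - finrank ℝ (fixSp G),
    ∃ g : Fin k → Isom n, (∀ i, g i ∈ G) ∧ finrank ℝ (fixSp (Set.range g)) ≤ n - k := by
  intro k
  induction k with
  | zero =>
    intro _
    exact ⟨Fin.elim0, fun i => i.elim0, by simpa using fix_le _⟩
  | succ k ih =>
    intro hk
    obtain ⟨g, hgG, hg⟩ := ih (by omega)
    have hne : ∃ h ∈ G, finrank ℝ (fixSp (Set.range g)) ≤ n - (k + 1) ∨
        ∃ z ∈ fixSp (Set.range g), h z ≠ z := by
      by_cases hc : finrank ℝ (fixSp (Set.range g)) ≤ n - (k + 1)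
      · by_cases hGe : G.Nonempty
        · obtain ⟨h, hh⟩ := hGe
          exact ⟨h, hh, Or.inl hc⟩
        · exfalso
          rw [Set.not_nonempty_iff_eq_empty] at hGe
          have : fixSp G = ⊤ := by
            rw [hGe, eq_top_iff]
            intro z _
            rw [mem_fixSp]
            simp
          rw [this, finrank_top, finrank_euclideanSpace_fin] at hk
          omega
      · by_contra hcon
        push Not at hcon
        have hle : fixSp (Set.range g) ≤ fixSp G := by
          intro z hz
          rw [mem_fixSp]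
          intro h hh
          exact (hcon h hh).2 z hz
        have := Submodule.finrank_mono hle
        omega
    obtain ⟨h, hh, hcase⟩ := hne
    refine ⟨Fin.cons h g, ?_, ?_⟩
    · intro i
      refine Fin.cases ?_ (fun j => ?_) i
      · simpa using hh
      · simpa using hgG j
    · have hle : fixSp (Set.range (Fin.cons h g : Fin (k + 1) → Isom n)) ≤
          fixSp (Set.range g) := by
        intro z hz
        rw [mem_fixSp] at hz ⊢
        rintro _ ⟨i, rfl⟩
        exact hz _ ⟨i.succ, by simp⟩
      rcases hcase with hc | ⟨z, hz, hzne⟩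
      · exact (Submodule.finrank_mono hle).trans hc
      · have hlt : fixSp (Set.range (Fin.cons h g : Fin (k + 1) → Isom n)) <
            fixSp (Set.range g) := by
          refine lt_of_le_of_ne hle ?_
          intro heq
          rw [← heq, mem_fixSp] at hz
          exact hzne (hz h ⟨0, by simp⟩)
        have := Submodule.finrank_lt_finrank_of_lt hlt
        omega

/-- the isometries `g i`, extended by the identity -/
noncomputable def extd {r : ℕ} (g : Fin r → Isom n) (i : ℕ) : Isom n :=
  if h : i < r then g ⟨i, h⟩ else LinearIsometryEquiv.refl ℝ (E n)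

/-- the space of the vectors on which `g i` and `g (i + 1)` agree for `i ∈ T` -/
noncomputable def agree (g : ℕ → Isom n) (T : Finset ℕ) : Submodule ℝ (E n) :=
  ⨅ i ∈ T, LinearMap.ker (((g i).toLinearEquiv : E n →ₗ[ℝ] E n) -
    ((g (i + 1)).toLinearEquiv : E n →ₗ[ℝ] E n))

lemma mem_agree {g : ℕ → Isom n} {T : Finset ℕ} {z : E n} :
    z ∈ agree g T ↔ ∀ i ∈ T, g i z = g (i + 1) z := by
  simp only [agree, Submodule.mem_iInf, LinearMap.mem_ker, LinearMap.sub_apply, sub_eq_zero]
  rfl

lemma fix_image {g : ℕ → Isom n} {D : ℕ} (S : Finset ℕ) (hD : ∀ i ∈ S, mdim (g i) ≤ D) :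
    n ≤ finrank ℝ (fixSp (g '' (S : Set ℕ))) + D * S.card := by
  classical
  induction S using Finset.induction_on with
  | empty =>
    have : fixSp (g '' ((∅ : Finset ℕ) : Set ℕ)) = ⊤ := by
      rw [eq_top_iff]
      intro z _
      rw [mem_fixSp]
      simp
    rw [this, finrank_top, finrank_euclideanSpace_fin]
    omega
  | insert a S ha ih =>
    have h1 := ih (fun i hi => hD i (Finset.mem_insert_of_mem hi))
    have h2 := hD a (Finset.mem_insert_self a S)
    have h3 : fixSp (g '' (S : Set ℕ)) ⊓ LinearMap.ker (dif (g a)) ≤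
        fixSp (g '' ((insert a S : Finset ℕ) : Set ℕ)) := by
      intro z hz
      rw [Submodule.mem_inf, mem_fixSp, mem_ker_dif] at hz
      rw [mem_fixSp]
      rintro _ ⟨i, hi, rfl⟩
      rw [Finset.mem_coe, Finset.mem_insert] at hi
      rcases hi with rfl | hi
      · exact hz.2
      · exact hz.1 _ ⟨i, hi, rfl⟩
    have h4 := Submodule.finrank_mono h3
    have h5 := finrank_inf (fixSp (g '' (S : Set ℕ))) (LinearMap.ker (dif (g a)))
    have h6 := finrank_ker_dif (g a)
    rw [Finset.card_insert_of_notMem ha, Nat.mul_succ]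
    omega

/-- the dimension of the space of agreement -/
theorem finrank_agree {r D : ℕ} (g : Fin r → Isom n)
    (hf : finrank ℝ (fixSp (Set.range g)) ≤ n - r) (hD : ∀ i, mdim (g i) ≤ D)
    {S : Finset ℕ} (hS : S ⊆ Finset.range r) :
    finrank ℝ (agree (extd g) (Finset.range r \ S)) ≤ n - r + D * S.card := by
  classical
  have h1 := fix_image (g := extd g) S (D := D) (fun i hi => by
    have hir := Finset.mem_range.1 (hS hi)
    unfold extd
    rw [dif_pos hir]
    exact hD _)
  have h2 : agree (extd g) (Finset.range r \ S) ⊓ fixSp (extd g '' (S : Set ℕ)) ≤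
      fixSp (Set.range g) := by
    intro z hz
    rw [Submodule.mem_inf, mem_agree, mem_fixSp] at hz
    obtain ⟨ha, hf⟩ := hz
    have hall : ∀ j, ∀ i, i + j = r → extd g i z = z := by
      intro j
      induction j with
      | zero =>
        intro i hi
        have : ¬ i < r := by omega
        unfold extd
        rw [dif_neg this]
        rfl
      | succ j ih =>
        intro i hi
        by_cases his : i ∈ S
        · exact hf _ ⟨i, his, rfl⟩
        · rw [ha i (by rw [Finset.mem_sdiff, Finset.mem_range]; exact ⟨by omega, his⟩)]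
          exact ih (i + 1) (by omega)
    rw [mem_fixSp]
    rintro _ ⟨i, rfl⟩
    have h3 := hall (r - i) i (by omega)
    unfold extd at h3
    rwa [dif_pos i.2] at h3
  have h3 := Submodule.finrank_mono h2
  have h4 := finrank_inf (agree (extd g) (Finset.range r \ S)) (fixSp (extd g '' (S : Set ℕ)))
  omega

/-- nets in finite sets of vectors -/
theorem exists_net {V : Type} [NormedAddCommGroup V] [InnerProductSpace ℝ V]
    [FiniteDimensional ℝ V] {ρ : ℝ} (hρ : 0 < ρ) {N : ℕ} (hN : (1 + 2 / ρ) ^ finrank ℝ V ≤ N)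
    (Y : Finset V) (hY : ∀ y ∈ Y, ‖y‖ ≤ 1) :
    ∃ T ⊆ Y, T.card ≤ N ∧ ∀ y ∈ Y, ∃ c ∈ T, ‖y - c‖ < ρ := by
  classical
  obtain ⟨T, hT, hmax⟩ : ∃ T ∈ Y.powerset.filter
      (fun T => ∀ x ∈ T, ∀ y ∈ T, x ≠ y → ρ ≤ ‖x - y‖),
      ∀ T' ∈ Y.powerset.filter (fun T => ∀ x ∈ T, ∀ y ∈ T, x ≠ y → ρ ≤ ‖x - y‖),
        T'.card ≤ T.card :=
    Finset.exists_max_image _ _ ⟨∅, by simp⟩
  rw [Finset.mem_filter, Finset.mem_powerset] at hT
  obtain ⟨hTY, hsep⟩ := hT
  refine ⟨T, hTY, ?_, ?_⟩
  · have h1 := packing (R := 1) zero_le_one hρ T (fun x hx => hY x (hTY hx)) hsep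
    rw [mul_one] at h1
    exact_mod_cast h1.trans hN
  · intro y hy
    by_contra hcon
    push Not at hcon
    have hyT : y ∉ T := fun h => by
      have := hcon y h
      rw [sub_self, norm_zero] at this
      linarith
    have h1 := hmax (insert y T) (by
      rw [Finset.mem_filter, Finset.mem_powerset]
      refine ⟨Finset.insert_subset hy hTY, ?_⟩
      intro a ha b hb hab
      rw [Finset.mem_insert] at ha hb
      rcases ha with rfl | ha <;> rcases hb with rfl | hb
      · exact absurd rfl hab
      · exact hcon b hb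
      · rw [norm_sub_rev]; exact hcon a ha
      · exact hsep a ha b hb hab)
    rw [Finset.card_insert_of_notMem hyT] at h1
    omega

/-- colourings with colours `0, …, N - 1` such that equal colours mean small distance -/
theorem exists_colour {V : Type} [NormedAddCommGroup V] [InnerProductSpace ℝ V]
    [FiniteDimensional ℝ V] {ρ : ℝ} (hρ : 0 < ρ) {N : ℕ} (hN : (1 + 2 / ρ) ^ finrank ℝ V ≤ N)
    {r : ℕ} (v : Fin r → V) (hv : ∀ i, ‖v i‖ ≤ 1) :
    ∃ c : Fin r → ℕ, (∀ i, c i < N) ∧ ∀ i j, c i = c j → ‖v i - v j‖ < 2 * ρ := by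
  classical
  obtain ⟨T, _, hTc, hT⟩ := exists_net hρ hN (Finset.univ.image v) (by
    intro y hy
    obtain ⟨i, _, rfl⟩ := Finset.mem_image.1 hy
    exact hv i)
  choose p hp hpd using fun i => hT (v i) (Finset.mem_image_of_mem v (Finset.mem_univ i))
  refine ⟨fun i => (T.equivFin ⟨p i, hp i⟩ : Fin T.card), fun i =>
    lt_of_lt_of_le (Fin.is_lt _) hTc, ?_⟩
  intro i j hij
  have h1 : T.equivFin ⟨p i, hp i⟩ = T.equivFin ⟨p j, hp j⟩ := Fin.ext hij
  have h2 := T.equivFin.injective h1
  have h3 : p i = p j := congrArg Subtype.val h2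
  calc ‖v i - v j‖ = ‖(v i - p i) - (v j - p j)‖ := by rw [h3]; congr 1; abel
    _ ≤ ‖v i - p i‖ + ‖v j - p j‖ := norm_sub_le _ _
    _ < 2 * ρ := by linarith [hpd i, hpd j]

/-- a monotone sequence of natural numbers less than `N` has at most `N` jumps -/
lemma card_jumps {N r : ℕ} {c : ℕ → ℕ} (hc : ∀ i j, i ≤ j → j < r → c i ≤ c j)
    (hN : ∀ i, i < r → c i < N) :
    ((Finset.range r).filter (fun i => i + 1 < r ∧ c i ≠ c (i + 1))).card ≤ N := by
  classical
  calc _ ≤ (Finset.range N).card := by
        apply Finset.card_le_card_of_injOn c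
        · intro i hi
          rw [Finset.mem_coe, Finset.mem_filter, Finset.mem_range] at hi
          rw [Finset.mem_coe, Finset.mem_range]
          exact hN i hi.1
        · intro i hi j hj hij
          rw [Finset.mem_coe, Finset.mem_filter, Finset.mem_range] at hi hj
          by_contra hne
          rcases lt_or_gt_of_ne hne with h | h
          · have h1 := hc i (i + 1) (by omega) (by omega)
            have h2 := hc (i + 1) j (by omega) (by omega)
            have := hi.2.2
            omega
          · have h1 := hc j (j + 1) (by omega) (by omega)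
            have h2 := hc (j + 1) i (by omega) (by omega)
            have := hj.2.2
            omega
    _ = N := Finset.card_range N

end Pool.Agent.H104.Refl
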