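import Pool.Graph.R_seed8.R117.HS.KissB

/-! The inertia operator `z ↦ ∑_{x ∈ X} ⟨x, z⟩ x` of a finite set of unit vectors, its spectral
subspaces, and the mean displacement under isometries with small moved space. -/

open scoped InnerProductSpace
open Module

namespace Pool.Agent.H104.Refl

open Pool.Agent.H818R2 Pool.Agent.H161R2.KissSym Pool.Agent.R117.HS

variable {n : ℕ}

/-- the inertia operator -/
noncomputable def inertia (X : Finset (E n)) : E n →ₗ[ℝ] E n :=
  ∑ x ∈ X, ((innerSL ℝ x : E n →L[ℝ] ℝ) : E n →ₗ[ℝ] ℝ).smulRight x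

lemma inertia_apply (X : Finset (E n)) (z : E n) : inertia X z = ∑ x ∈ X, ⟪x, z⟫_ℝ • x := by
  simp [inertia, LinearMap.sum_apply]

lemma inner_inertia (X : Finset (E n)) (z u : E n) :
    ⟪inertia X z, u⟫_ℝ = ∑ x ∈ X, ⟪x, z⟫_ℝ * ⟪x, u⟫_ℝ := by
  rw [inertia_apply, sum_inner]
  exact Finset.sum_congr rfl fun x _ => by rw [real_inner_smul_left]

lemma inertia_symm (X : Finset (E n)) : (inertia X).IsSymmetric := by
  intro z u
  rw [inner_inertia, real_inner_comm, inner_inertia]
  exact Finset.sum_congr rfl fun x _ => mul_comm _ _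

lemma image_eq {X : Finset (E n)} {g : Isom n} (hg : ∀ x ∈ X, g x ∈ X) :
    X.image g = X := by
  apply Finset.eq_of_subset_of_card_le
  · intro y hy
    obtain ⟨x, hx, rfl⟩ := Finset.mem_image.1 hy
    exact hg x hx
  · rw [Finset.card_image_of_injective _ g.injective]

lemma inertia_comm {X : Finset (E n)} {g : Isom n} (hg : ∀ x ∈ X, g x ∈ X) (z : E n) :
    inertia X (g z) = g (inertia X z) := by
  rw [inertia_apply, inertia_apply, map_sum]
  conv_lhs => rw [← image_eq hg]
  rw [Finset.sum_image (fun a _ b _ h => g.injective h)]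
  exact Finset.sum_congr rfl fun x _ => by rw [g.inner_map_map, map_smul]

/-- a spectral subspace of the inertia operator: it has small dimension, it is invariant under the
symmetries of `X`, and the inertia is small on its complement -/
theorem exists_core {X : Finset (E n)} (hX : ∀ x ∈ X, ‖x‖ = 1) {t : ℝ} (ht : 0 < t) :
    ∃ W : Submodule ℝ (E n), (finrank ℝ W : ℝ) * t ≤ X.card ∧
      (∀ g : Isom n, (∀ x ∈ X, g x ∈ X) → ∀ z ∈ W, g z ∈ W) ∧
      ∀ z ∈ Wᗮ, ∑ x ∈ X, ⟪x, z⟫_ℝ ^ 2 ≤ t * ‖z‖ ^ 2 := by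
  classical
  have hn : finrank ℝ (E n) = n := finrank_euclideanSpace_fin
  have hs := inertia_symm X
  set b := hs.eigenvectorBasis hn with hb
  set μ := hs.eigenvalues hn with hμ
  have hbe : ∀ i, inertia X (b i) = μ i • b i := fun i => hs.apply_eigenvectorBasis hn i
  have hbn : ∀ i, ⟪b i, b i⟫_ℝ = 1 := fun i => by
    rw [real_inner_self_eq_norm_sq, b.orthonormal.1 i]; norm_num
  have hμs : ∀ i, μ i = ∑ x ∈ X, ⟪x, b i⟫_ℝ ^ 2 := by
    intro i
    have h1 := inner_inertia X (b i) (b i)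
    rw [hbe, real_inner_smul_left, hbn, mul_one] at h1
    rw [h1]
    exact Finset.sum_congr rfl fun x _ => by ring
  have hμ0 : ∀ i, 0 ≤ μ i := fun i => by
    rw [hμs]; exact Finset.sum_nonneg fun x _ => sq_nonneg _
  have hμsum : ∑ i, μ i = X.card := by
    simp only [hμs]
    rw [Finset.sum_comm]
    have : ∀ x ∈ X, ∑ i, ⟪x, b i⟫_ℝ ^ 2 = 1 := by
      intro x hx
      have h1 := b.sum_sq_norm_inner_left x
      rw [hX x hx] at h1
      simpa using h1
    rw [Finset.sum_congr rfl this]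
    simp
  set I : Finset (Fin n) := Finset.univ.filter (fun i => t < μ i) with hI
  set W : Submodule ℝ (E n) := Submodule.span ℝ ((I.image b : Finset (E n)) : Set (E n)) with hW
  have hbW : ∀ i, t < μ i → b i ∈ W := fun i hi => Submodule.subset_span (by
    rw [Finset.mem_coe, Finset.mem_image]
    exact ⟨i, Finset.mem_filter.2 ⟨Finset.mem_univ _, hi⟩, rfl⟩)
  have horth : ∀ j, ¬ t < μ j → ∀ z ∈ W, ⟪b j, z⟫_ℝ = 0 := by
    intro j hj z hz
    induction hz using Submodule.span_induction with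
    | mem z hz =>
      rw [Finset.mem_coe, Finset.mem_image] at hz
      obtain ⟨i, hi, rfl⟩ := hz
      apply b.orthonormal.2
      rintro rfl
      exact hj (Finset.mem_filter.1 hi).2
    | zero => exact inner_zero_right _
    | add a b _ _ iha ihb => rw [inner_add_right, iha, ihb, add_zero]
    | smul c a _ iha => rw [real_inner_smul_right, iha, mul_zero]
  have hmem : ∀ z, (∀ j, ¬ t < μ j → ⟪b j, z⟫_ℝ = 0) → z ∈ W := by
    intro z hz
    rw [← b.sum_repr z]
    apply Submodule.sum_mem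
    intro i _
    by_cases hi : t < μ i
    · exact Submodule.smul_mem _ _ (hbW i hi)
    · rw [b.repr_apply_apply, hz i hi, zero_smul]
      exact Submodule.zero_mem _
  refine ⟨W, ?_, ?_, ?_⟩
  · have h1 : finrank ℝ W ≤ I.card :=
      (finrank_span_finset_le_card _).trans Finset.card_image_le
    have h2 : (I.card : ℝ) * t ≤ ∑ i ∈ I, μ i := by
      rw [← nsmul_eq_mul]
      exact Finset.card_nsmul_le_sum _ _ _ fun i hi => (Finset.mem_filter.1 hi).2.le
    have h3 : ∑ i ∈ I, μ i ≤ ∑ i, μ i :=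
      Finset.sum_le_sum_of_subset_of_nonneg (Finset.subset_univ _) fun i _ _ => hμ0 i
    have h4 : (finrank ℝ W : ℝ) * t ≤ I.card * t :=
      mul_le_mul_of_nonneg_right (by exact_mod_cast h1) ht.le
    rw [hμsum] at h3
    linarith
  · intro g hg z hz
    -- the image of the span
    have hgb : ∀ i, t < μ i → g (b i) ∈ W := by
      intro i hi
      apply hmem
      intro j hj
      have h1 : ⟪inertia X (b j), g (b i)⟫_ℝ = ⟪b j, inertia X (g (b i))⟫_ℝ := hs _ _
      rw [inertia_comm hg, hbe, hbe, map_smul, real_inner_smul_left, real_inner_smul_right] at h1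
      have h2 : (μ j - μ i) * ⟪b j, g (b i)⟫_ℝ = 0 := by linarith
      rcases mul_eq_zero.1 h2 with h3 | h3
      · exfalso
        apply hj
        linarith
      · exact h3
    induction hz using Submodule.span_induction with
    | mem z hz =>
      rw [Finset.mem_coe, Finset.mem_image] at hz
      obtain ⟨i, hi, rfl⟩ := hz
      exact hgb i (Finset.mem_filter.1 hi).2
    | zero => rw [map_zero]; exact Submodule.zero_mem _
    | add a b _ _ iha ihb => rw [map_add]; exact Submodule.add_mem _ iha ihb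
    | smul c a _ iha => rw [map_smul]; exact Submodule.smul_mem _ _ iha
  · intro z hz
    have hz0 : ∀ i, t < μ i → ⟪b i, z⟫_ℝ = 0 := fun i hi =>
      (Submodule.mem_orthogonal _ z).1 hz _ (hbW i hi)
    have h1 : ∑ x ∈ X, ⟪x, z⟫_ℝ ^ 2 = ∑ i, μ i * ⟪b i, z⟫_ℝ ^ 2 := by
      have h2 : ⟪inertia X z, z⟫_ℝ = ∑ x ∈ X, ⟪x, z⟫_ℝ ^ 2 := by
        rw [inner_inertia]
        exact Finset.sum_congr rfl fun x _ => by ring
      rw [← h2, ← b.sum_inner_mul_inner (inertia X z) z]
      apply Finset.sum_congr rfl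
      intro i _
      have h3 : ⟪inertia X z, b i⟫_ℝ = μ i * ⟪b i, z⟫_ℝ := by
        rw [hs z (b i), hbe, real_inner_smul_right, real_inner_comm]
      rw [h3]
      ring
    rw [h1]
    have h4 : ‖z‖ ^ 2 = ∑ i, ⟪b i, z⟫_ℝ ^ 2 := by
      have h5 := b.sum_sq_norm_inner_right z
      rw [← h5]
      exact Finset.sum_congr rfl fun i _ => by rw [Real.norm_eq_abs, sq_abs]
    rw [h4, Finset.mul_sum]
    apply Finset.sum_le_sum
    intro i _
    by_cases hi : t < μ i
    · rw [hz0 i hi]; simp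
    · exact mul_le_mul_of_nonneg_right (not_lt.1 hi) (sq_nonneg _)

/-- the mean displacement -/
theorem displacement {X : Finset (E n)} {t : ℝ} (ht : 0 ≤ t) {W : Submodule ℝ (E n)}
    (hW : ∀ z ∈ Wᗮ, ∑ x ∈ X, ⟪x, z⟫_ℝ ^ 2 ≤ t * ‖z‖ ^ 2) {g : Isom n} {D : ℕ}
    (hg : mdim g ≤ D) :
    ∑ x ∈ X, ‖g (Wᗮ.starProjection x) - Wᗮ.starProjection x‖ ^ 2 ≤ 4 * D * t := by
  classical
  set e := stdOrthonormalBasis ℝ (moved g) with he
  have h1 : ∀ y : E n, ‖g y - y‖ ^ 2 ≤ 4 * ∑ l, ⟪(e l : E n), y⟫_ℝ ^ 2 := by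
    intro y
    have h2 := moved_bound g y
    have h3 : ‖(moved g).starProjection y‖ ^ 2 = ∑ l, ⟪(e l : E n), y⟫_ℝ ^ 2 := by
      have h4 := e.sum_sq_norm_inner_right ((moved g).orthogonalProjectionOnto y)
      have h5 : ‖(moved g).starProjection y‖ = ‖(moved g).orthogonalProjectionOnto y‖ := rfl
      rw [h5, ← h4]
      apply Finset.sum_congr rfl
      intro l _
      rw [Real.norm_eq_abs, sq_abs]
      congr 1
      exact Submodule.inner_orthogonalProjectionOnto_eq_of_mem_left (e l) y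
    calc ‖g y - y‖ ^ 2 ≤ (2 * ‖(moved g).starProjection y‖) ^ 2 :=
          pow_le_pow_left₀ (norm_nonneg _) h2 2
      _ = _ := by rw [mul_pow, h3]; ring
  calc ∑ x ∈ X, ‖g (Wᗮ.starProjection x) - Wᗮ.starProjection x‖ ^ 2
      ≤ ∑ x ∈ X, 4 * ∑ l, ⟪(e l : E n), Wᗮ.starProjection x⟫_ℝ ^ 2 :=
        Finset.sum_le_sum fun x _ => h1 _
    _ = 4 * ∑ l, ∑ x ∈ X, ⟪x, Wᗮ.starProjection (e l : E n)⟫_ℝ ^ 2 := by
        rw [← Finset.mul_sum, Finset.sum_comm]
        congr 1
        apply Finset.sum_congr rfl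
        intro l _
        apply Finset.sum_congr rfl
        intro x _
        rw [← Submodule.inner_starProjection_left_eq_right, real_inner_comm]
    _ ≤ 4 * ∑ l : Fin (finrank ℝ (moved g)), t := by
        apply mul_le_mul_of_nonneg_left _ (by norm_num)
        apply Finset.sum_le_sum
        intro l _
        refine (hW _ (Submodule.starProjection_apply_mem _ _)).trans ?_
        have h6 : ‖Wᗮ.starProjection (e l : E n)‖ ≤ 1 := by
          have h7 := Submodule.norm_starProjection_apply_le Wᗮ (e l : E n)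
          have h8 : ‖(e l : E n)‖ = 1 := e.orthonormal.1 l
          rwa [h8] at h7
        have h9 : ‖Wᗮ.starProjection (e l : E n)‖ ^ 2 ≤ 1 := pow_le_one₀ (norm_nonneg _) h6
        nlinarith
    _ = 4 * (finrank ℝ (moved g)) * t := by simp; ring
    _ ≤ 4 * D * t := by
        have : (finrank ℝ (moved g) : ℝ) ≤ D := by exact_mod_cast hg
        nlinarith

end Pool.Agent.H104.Refl
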