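import Pool.Agent.H104.Refl.Core
import Pool.Agent.H104.Refl.Asym

/-! Spherical codes and kissing configurations invariant under isometries with moved spaces of
bounded dimension: asymptotic bounds. -/

open scoped InnerProductSpace
open Module Filter Topology

namespace Pool.Agent.H104.Refl

open Pool.Agent.H818R2 Pool.Agent.H161R2.KissSym Pool.Agent.R117.HS

/-- the dimension of the space of the vectors fixed by all `g ∈ G` -/
noncomputable def fixDim0 {n : ℕ} (G : Set (Isom n)) : ℕ := finrank ℝ (fixSp G)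

lemma choose_pow_le {q : ℝ} (hq : 0 < q) (r K : ℕ) :
    ∑ k ∈ Finset.range (K + 1), (r.choose k : ℝ) * q ^ k ≤ (1 + q) ^ r := by
  have h1 : (1 + q) ^ r = ∑ k ∈ Finset.range (r + 1), (r.choose k : ℝ) * q ^ k := by
    rw [add_comm, add_pow]
    exact Finset.sum_congr rfl fun k _ => by rw [one_pow, mul_one, mul_comm]
  rw [h1]
  rcases le_total K r with h | h
  · apply Finset.sum_le_sum_of_subset_of_nonneg
    · intro k hk
      rw [Finset.mem_range] at hk ⊢
      omega
    · intro k _ _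
      positivity
  · apply le_of_eq
    symm
    apply Finset.sum_subset
    · intro k hk
      rw [Finset.mem_range] at hk ⊢
      omega
    · intro k _ hk
      rw [Finset.mem_range, not_lt] at hk
      rw [Nat.choose_eq_zero_of_lt (by omega)]
      simp

lemma choose_sum_pow {q : ℝ} (hq : 0 < q) (hq1 : q ≤ 1) (r K : ℕ) :
    (∑ k ∈ Finset.range (K + 1), (r.choose k : ℝ)) * q ^ K ≤ (1 + q) ^ r := by
  refine le_trans ?_ (choose_pow_le hq r K)
  rw [Finset.sum_mul]
  apply Finset.sum_le_sum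
  intro k hk
  rw [Finset.mem_range] at hk
  exact mul_le_mul_of_nonneg_left (pow_le_pow_of_le_one hq.le hq1 (by omega)) (Nat.cast_nonneg _)

lemma sphMax_iter {θ : ℝ} (hθ : 0 < θ) (hθ2 : θ < Real.pi / 2) {m : ℕ} (hm : 0 < m)
    (h7 : 7 ≤ Real.cosh (m * Real.arcosh (1 / Real.cos θ))) {a : ℕ} (ha : 4 ≤ a) (j : ℕ) :
    sphMax (a + j) θ ≤ (8 * m) ^ j * sphMax a θ := by
  induction j with
  | zero => simp
  | succ j ih =>
    calc sphMax (a + (j + 1)) θ = sphMax ((a + j) + 1) θ := by rw [Nat.add_assoc]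
      _ ≤ 8 * m * sphMax (a + j) θ := sphMax_succ_le hθ hθ2 hm h7 (by omega)
      _ ≤ 8 * m * ((8 * m) ^ j * sphMax a θ) := Nat.mul_le_mul_left _ ih
      _ = (8 * m) ^ (j + 1) * sphMax a θ := by ring

/-- **codes invariant under isometries with moved spaces of bounded dimension** -/
theorem asymp {θ : ℝ} (hθ : 0 < θ) (hθ2 : θ < Real.pi / 2) (D : ℕ) {η : ℝ} (hη : 0 < η) :
    ∀ᶠ n : ℕ in atTop, ∀ (G : Set (Isom n)) (X : Finset (E n)), IsSphCode n θ X →
      (∀ g ∈ G, mdim g ≤ D ∧ ∀ x ∈ X, g x ∈ X) →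
        (X.card : ℝ) ≤ (2 : ℝ) ^ (η * n) * sphMax (fixDim0 G + 4) θ := by
  have hs : 0 < Real.sin (θ / 2) :=
    Real.sin_pos_of_pos_of_lt_pi (by linarith) (by linarith [Real.pi_pos])
  set s := Real.sin (θ / 2) with hsdef
  obtain ⟨m, hm, h7⟩ := exists_m hθ hθ2
  set D' := D + 1 with hD'
  -- constants
  set q : ℝ := min 1 (η / 8) with hq
  have hq0 : 0 < q := lt_min one_pos (by positivity)
  have hq1 : q ≤ 1 := min_le_left _ _
  have hq8 : q ≤ η / 8 := min_le_right _ _
  set C : ℝ := (8 * m) ^ D' / q with hC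
  have hm' : (1 : ℝ) ≤ m := by exact_mod_cast hm
  have hC1 : 1 ≤ C := by
    rw [hC, le_div_iff₀ hq0, one_mul]
    refine hq1.trans (one_le_pow₀ ?_)
    linarith
  set L : ℝ := Real.logb 2 C + 1 with hL
  have hLC : 0 ≤ Real.logb 2 C := Real.logb_nonneg (by norm_num) hC1
  have hL0 : 0 < L := by linarith
  set ε : ℝ := η / (4 * L) with hε
  have hε0 : 0 < ε := by positivity
  obtain ⟨w, hw⟩ := exists_nat_gt (32 * D' / (s ^ 2 * ε))
  have hD0 : (0 : ℝ) < D' := by rw [hD']; positivity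
  have hw0 : (0 : ℝ) < w := lt_trans (by positivity) hw
  have hwn : 0 < w := by exact_mod_cast hw0
  obtain ⟨N, hN⟩ := exists_nat_ge ((1 + 8 / s) ^ w)
  have hN1 : (1 : ℝ) ≤ N := by
    refine le_trans (one_le_pow₀ ?_) hN
    have : 0 < 8 / s := by positivity
    linarith
  have hlim : ∀ᶠ n : ℕ in atTop, 2 * (N : ℝ) * (2 : ℝ) ^ (L * (N + 2)) ≤ (2 : ℝ) ^ (η / 4 * n) := by
    have h1 : Tendsto (fun n : ℕ => η / 4 * (n : ℝ)) atTop atTop :=
      Tendsto.const_mul_atTop (by positivity) tendsto_natCast_atTop_atTop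
    have h2 : Tendsto (fun n : ℕ => (2 : ℝ) ^ (η / 4 * (n : ℝ))) atTop atTop :=
      (tendsto_rpow_atTop_of_base_gt_one 2 (by norm_num)).comp h1
    exact h2.eventually_ge_atTop _
  filter_upwards [hlim, eventually_gt_atTop 0] with n hn hn0
  intro G X hX hG
  have hn' : (0 : ℝ) < n := by exact_mod_cast hn0
  set f := fixDim0 G with hf
  have hfn : f ≤ n := fix_le G
  set r := n - f with hr
  set α : ℝ := 8 * D' * n / w with hα
  have hα0 : 0 < α := by positivity
  set K := N + 1 + ⌈ε * n⌉₊ with hK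
  have hKle : (K : ℝ) ≤ N + 2 + ε * n := by
    have := Nat.ceil_lt_add_one (show 0 ≤ ε * n by positivity)
    rw [hK]
    push_cast
    linarith
  have hcore := core hs hX (G := G) (fun g hg => (hG g hg).2) (D := D')
    (fun g hg => ((hG g hg).1).trans (Nat.le_succ D)) hwn hα0 (N := N) (K := K) (by
      have h1 : ((n - finrank ℝ (fixSp G) : ℕ) : ℝ) ≤ n := by
        exact_mod_cast Nat.sub_le _ _
      calc 8 * (D' : ℝ) * ((n - finrank ℝ (fixSp G) : ℕ) : ℝ) ≤ 8 * D' * n :=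
            mul_le_mul_of_nonneg_left h1 (by positivity)
        _ = α * w := by rw [hα]; field_simp) hN (by
      have h2 : 4 * α / s ^ 2 ≤ ε * n := by
        rw [hα, div_le_iff₀ (by positivity)]
        rw [div_lt_iff₀ (by positivity)] at hw
        have h3 : 4 * (8 * (D' : ℝ) * n / w) = (32 * D' * n) / w := by ring
        rw [h3, div_le_iff₀ hw0]
        nlinarith
      have h3 := Nat.le_ceil (ε * n)
      rw [hK]
      push_cast
      linarith)
  -- the sum
  have hsum : ∑ k ∈ Finset.range (K + 1), r.choose k * sphMax (f + D' * k) θ ≤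
      (∑ k ∈ Finset.range (K + 1), r.choose k) * ((8 * m) ^ (D' * K) * sphMax (f + 4) θ) := by
    rw [Finset.sum_mul]
    apply Finset.sum_le_sum
    intro k hk
    rw [Finset.mem_range] at hk
    apply Nat.mul_le_mul_left
    calc sphMax (f + D' * k) θ ≤ sphMax (f + 4 + D' * K) θ := by
          apply sphMax_mono hs
          have : D' * k ≤ D' * K := Nat.mul_le_mul_left _ (by omega)
          omega
      _ ≤ _ := sphMax_iter hθ hθ2 hm h7 (by omega) _
  have h3 : (X.card : ℝ) ≤ 2 * (N * ((∑ k ∈ Finset.range (K + 1), (r.choose k : ℝ)) *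
      ((8 * m) ^ (D' * K) * sphMax (f + 4) θ))) := by
    have h4 : X.card ≤ 2 * (N * ((∑ k ∈ Finset.range (K + 1), r.choose k) *
      ((8 * m) ^ (D' * K) * sphMax (f + 4) θ))) :=
      hcore.trans (Nat.mul_le_mul_left _ (Nat.mul_le_mul_left _ hsum))
    exact_mod_cast h4
  have h5 : (∑ k ∈ Finset.range (K + 1), (r.choose k : ℝ)) ≤ (1 + q) ^ n / q ^ K := by
    rw [le_div_iff₀ (by positivity)]
    refine (choose_sum_pow hq0 hq1 r K).trans (pow_le_pow_right₀ (by linarith) (Nat.sub_le _ _))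
  have h6 : (1 + q) ^ n ≤ (2 : ℝ) ^ (η / 4 * n) := by
    have h7 : 1 + q ≤ (2 : ℝ) ^ (η / 4) := by
      have h8 : 1 + q ≤ Real.exp q := by linarith [Real.add_one_le_exp q]
      have h9 : Real.exp q ≤ (2 : ℝ) ^ (η / 4) := by
        rw [Real.rpow_def_of_pos (by norm_num), Real.exp_le_exp]
        have := Real.log_two_gt_d9
        nlinarith
      exact h8.trans h9
    calc (1 + q) ^ n ≤ ((2 : ℝ) ^ (η / 4)) ^ n := pow_le_pow_left₀ (by positivity) h7 n
      _ = _ := by rw [← Real.rpow_natCast, ← Real.rpow_mul (by norm_num)]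
  have h8 : C ^ K ≤ (2 : ℝ) ^ (L * (N + 2)) * (2 : ℝ) ^ (η / 4 * n) := by
    have hCp : 0 < C := by linarith
    have h9 : C ≤ (2 : ℝ) ^ L := by
      rw [← Real.logb_le_iff_le_rpow (by norm_num) hCp]
      linarith
    calc C ^ K ≤ ((2 : ℝ) ^ L) ^ K := pow_le_pow_left₀ hCp.le h9 K
      _ = (2 : ℝ) ^ (L * K) := by rw [← Real.rpow_natCast, ← Real.rpow_mul (by norm_num)]
      _ ≤ (2 : ℝ) ^ (L * (N + 2) + η / 4 * n) := by
          apply Real.rpow_le_rpow_of_exponent_le (by norm_num)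
          have h10 : L * K ≤ L * (N + 2 + ε * n) := mul_le_mul_of_nonneg_left hKle hL0.le
          have h11 : L * ε = η / 4 := by rw [hε]; field_simp
          calc L * (K : ℝ) ≤ L * (N + 2 + ε * n) := h10
            _ = L * (N + 2) + (L * ε) * n := by ring
            _ = _ := by rw [h11]
      _ = _ := Real.rpow_add (by norm_num) _ _
  set M : ℝ := ((sphMax (f + 4) θ : ℕ) : ℝ) with hM
  have hM0 : 0 ≤ M := Nat.cast_nonneg _
  calc (X.card : ℝ) ≤ 2 * (N * ((∑ k ∈ Finset.range (K + 1), (r.choose k : ℝ)) *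
      ((8 * m) ^ (D' * K) * M))) := h3
    _ ≤ 2 * (N * (((1 + q) ^ n / q ^ K) * ((8 * m) ^ (D' * K) * M))) := by gcongr
    _ = 2 * N * (1 + q) ^ n * C ^ K * M := by
        rw [hC, div_pow, pow_mul]
        ring
    _ ≤ 2 * N * (2 : ℝ) ^ (η / 4 * n) * ((2 : ℝ) ^ (L * (N + 2)) * (2 : ℝ) ^ (η / 4 * n)) * M := by
        gcongr
    _ = (2 * N * (2 : ℝ) ^ (L * (N + 2))) * ((2 : ℝ) ^ (η / 4 * n) * (2 : ℝ) ^ (η / 4 * n)) * M := by
        ring
    _ ≤ (2 : ℝ) ^ (η / 4 * n) * ((2 : ℝ) ^ (η / 4 * n) * (2 : ℝ) ^ (η / 4 * n)) * M := by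
        gcongr
    _ = (2 : ℝ) ^ (3 * η / 4 * n) * M := by
        rw [← Real.rpow_add (by norm_num), ← Real.rpow_add (by norm_num)]
        congr 2
        ring
    _ ≤ (2 : ℝ) ^ (η * n) * M := by
        apply mul_le_mul_of_nonneg_right _ hM0
        apply Real.rpow_le_rpow_of_exponent_le (by norm_num)
        nlinarith

end Pool.Agent.H104.Refl
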