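import Pool.Agent.H104.Refl.Local

/-! Kissing configurations with local symmetries: growth rates and consequences. -/

open scoped InnerProductSpace
open Module Filter Topology

namespace Pool.Agent.H104.Refl

open Pool.Agent.H818R2 Pool.Agent.H161R2.KissSym Pool.Agent.R117.HS

lemma fixed_eq {n : ℕ} (G : Set (Isom n)) : fixedSpace G = fixSp G := by
  ext z
  rw [mem_fixSp]
  rfl

lemma fixDim_eq {n : ℕ} (G : Set (Isom n)) : fixDim G = fixDim0 G := by
  unfold fixDim fixDim0
  rw [fixed_eq]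

lemma mdim_le_iff {n D : ℕ} (g : Isom n) : n ≤ fixDim {g} + D ↔ mdim g ≤ D := by
  have h1 := finrank_ker_dif g
  have h3 : fixedSpace {g} = LinearMap.ker (dif g) := by
    ext z
    rw [mem_ker_dif, fixed_eq, mem_fixSp]
    simp
  have h2 : fixDim {g} = finrank ℝ (LinearMap.ker (dif g)) := by
    unfold fixDim
    rw [h3]
  rw [h2]
  omega

/-- **codes invariant under isometries with moved spaces of bounded dimension** -/
theorem asymp' {θ : ℝ} (hθ : 0 < θ) (hθ2 : θ < Real.pi / 2) (D : ℕ) {η : ℝ} (hη : 0 < η) :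
    ∀ᶠ n : ℕ in atTop, ∀ (G : Set (Iso n)) (X : Finset (EuclideanSpace ℝ (Fin n))),
      IsSphCode n θ X → LocalSym D G X →
        (X.card : ℝ) ≤ (2 : ℝ) ^ (η * n) * sphMax (fixDim G + 4) θ := by
  filter_upwards [asymp hθ hθ2 D hη] with n hn
  intro G X hX hG
  rw [fixDim_eq]
  exact hn G X hX fun g hg => ⟨(mdim_le_iff g).1 (hG g hg).1, (hG g hg).2⟩

lemma code_le {n : ℕ} {X : Finset (E n)} (hX : IsSphCode n (Real.pi / 3) X) :
    X.card ≤ kissing n := by
  have h := card_le_sub sin_pos' ⊤ hX (fun x _ => Submodule.mem_top)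
  rwa [finrank_top, finrank_euclideanSpace_fin] at h

lemma symKiss_bdd (D n m : ℕ) : BddAbove {N | ∃ (G : Set (Isom n)) (X : Finset (E n)),
    IsSphCode n (Real.pi / 3) X ∧ LocalSym D G X ∧ fixDim G = m ∧ X.card = N} := by
  refine ⟨kissing n, ?_⟩
  rintro N ⟨G, X, hX, _, _, rfl⟩
  exact code_le hX

/-- reflections with a prescribed dimension of the common fixed space -/
theorem exists_local {θ : ℝ} (hs : 0 < Real.sin (θ / 2)) {n m : ℕ} (hm : m ≤ n) :
    ∃ (G : Set (Isom n)) (X : Finset (E n)), IsSphCode n θ X ∧ LocalSym 1 G X ∧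
      fixDim G = m ∧ X.card = sphMax m θ := by
  have hr : n - m ≤ n := Nat.sub_le _ _
  set v : Fin (n - m) → EuclideanSpace ℝ (Fin n) :=
    fun i => EuclideanSpace.single (Fin.castLE hr i) (1 : ℝ) with hv
  have hon : Orthonormal ℝ v := by
    rw [orthonormal_iff_ite]
    intro i j
    rw [hv]
    simp only [EuclideanSpace.inner_single_left, map_one, one_mul]
    by_cases h : i = j
    · subst h
      simp
    · have h' : Fin.castLE hr i ≠ Fin.castLE hr j := fun h2 => h (Fin.castLE_injective hr h2)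
      simp [h, h']
  have hfr : finrank ℝ (Submodule.span ℝ (Set.range v)) = n - m := by
    rw [finrank_span_eq_card hon.linearIndependent, Fintype.card_fin]
  have h2 := Submodule.finrank_add_finrank_orthogonal (Submodule.span ℝ (Set.range v))
  rw [finrank_euclideanSpace_fin, hfr] at h2
  have hm' : finrank ℝ (Submodule.span ℝ (Set.range v))ᗮ = m := by omega
  set g : Fin (n - m) → Isom n := fun i => (ℝ ∙ v i)ᗮ.reflection with hg
  have hfix : fixSp (Set.range g) = (Submodule.span ℝ (Set.range v))ᗮ := by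
    ext z
    rw [mem_fixSp]
    constructor
    · intro h
      rw [Submodule.mem_orthogonal]
      intro u hu
      induction hu using Submodule.span_induction with
      | mem u hu =>
        obtain ⟨i, rfl⟩ := hu
        have h3 := h (g i) ⟨i, rfl⟩
        rw [hg] at h3
        simp only [Submodule.reflection_eq_self_iff] at h3
        exact (Submodule.mem_orthogonal _ z).1 h3 (v i) (Submodule.mem_span_singleton_self _)
      | zero => exact inner_zero_left _
      | add a b _ _ iha ihb => rw [inner_add_left, iha, ihb, add_zero]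
      | smul c a _ iha => rw [inner_smul_left, iha, mul_zero]
    · rintro h _ ⟨i, rfl⟩
      rw [hg]
      simp only [Submodule.reflection_eq_self_iff]
      rw [Submodule.mem_orthogonal] at h ⊢
      intro u hu
      rw [Submodule.mem_span_singleton] at hu
      obtain ⟨c, rfl⟩ := hu
      rw [inner_smul_left, h (v i) (Submodule.subset_span (Set.mem_range_self i)), mul_zero]
  obtain ⟨X, hX, hW, hc⟩ := exists_code_sub hs (Submodule.span ℝ (Set.range v))ᗮ
  refine ⟨Set.range g, X, hX, ?_, ?_, ?_⟩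
  · rintro _ ⟨i, rfl⟩
    constructor
    · rw [mdim_le_iff]
      have h3 := finrank_ker_dif (g i)
      have h4 : (ℝ ∙ v i)ᗮ ≤ LinearMap.ker (dif (g i)) := by
        intro z hz
        rw [mem_ker_dif]
        exact Submodule.reflection_mem_subspace_eq_self hz
      have h6 := Submodule.finrank_add_finrank_orthogonal (ℝ ∙ v i)
      rw [finrank_euclideanSpace_fin, finrank_span_singleton (hon.ne_zero i)] at h6
      have h9 : n - 1 ≤ finrank ℝ (ℝ ∙ v i)ᗮ := by omega
      have h5 : n - 1 + mdim (g i) ≤ n :=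
        (Nat.add_le_add_right (le_trans h9 (Submodule.finrank_mono h4)) _).trans_eq h3
      have h8 : 0 < n := by have := i.2; omega
      omega
    · intro x hx
      have h3 : g i x = x := by
        have h4 := hW x hx
        rw [← hfix, mem_fixSp] at h4
        exact h4 _ ⟨i, rfl⟩
      rw [h3]
      exact hx
  · rw [fixDim_eq]
    unfold fixDim0
    rw [hfix]
    exact hm'
  · rw [hc]
    congr 1

lemma LocalSym.mono {D D' : ℕ} (h : D ≤ D') {n : ℕ} {G : Set (Isom n)} {X : Finset (E n)}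
    (hG : LocalSym D G X) : LocalSym D' G X :=
  fun g hg => ⟨by have := (hG g hg).1; omega, (hG g hg).2⟩

lemma le_symKiss {D : ℕ} (hD : 1 ≤ D) {n m : ℕ} (hm : m ≤ n) : kissing m ≤ symKiss D n m := by
  obtain ⟨G, X, hX, hG, hf, hc⟩ := exists_local (n := n) sin_pos' hm
  exact le_csSup (symKiss_bdd D n m) ⟨G, X, hX, hG.mono hD, hf, hc⟩

lemma pi3 : (0 : ℝ) < Real.pi / 3 ∧ Real.pi / 3 < Real.pi / 2 :=
  ⟨by positivity, by linarith [Real.pi_pos]⟩

lemma symKiss_le (D : ℕ) {η : ℝ} (hη : 0 < η) : ∀ᶠ n : ℕ in atTop, ∀ m : ℕ,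
    (symKiss D n m : ℝ) ≤ (2 : ℝ) ^ (η * n) * kissing (m + 4) := by
  filter_upwards [asymp' pi3.1 pi3.2 D hη] with n hn
  intro m
  rcases Set.eq_empty_or_nonempty {N | ∃ (G : Set (Isom n)) (X : Finset (E n)),
      IsSphCode n (Real.pi / 3) X ∧ LocalSym D G X ∧ fixDim G = m ∧ X.card = N} with h | h
  · unfold symKiss
    rw [h, csSup_empty]
    simp only [bot_eq_zero', Nat.cast_zero]
    positivity
  · have hmem := Nat.sSup_mem h (symKiss_bdd D n m)
    obtain ⟨G, X, hX, hG, hf, hc⟩ := hmem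
    change X.card = symKiss D n m at hc
    rw [← hc, ← hf]
    exact hn G X hX hG

/-- the growth rates -/
theorem sym_rates {D : ℕ} (hD : 1 ≤ D) {κ : ℝ} (h0 : 0 ≤ κ) (h1 : κ < 1) :
    limsup (fun n : ℕ => Real.logb 2 (symKiss D n (n - ⌊κ * n⌋₊)) / n) atTop =
      (1 - κ) * cplus ∧
    liminf (fun n : ℕ => Real.logb 2 (symKiss D n (n - ⌊κ * n⌋₊)) / n) atTop =
      (1 - κ) * cminus := by
  have h := rates (F := fun n => symKiss D n (phi κ n)) h0 h1
    (Eventually.of_forall fun n => le_symKiss hD (Nat.sub_le _ _)) (by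
      intro η hη
      have hlim : ∀ᶠ n : ℕ in atTop, (16 : ℝ) ^ 4 ≤ (2 : ℝ) ^ (η / 2 * n) := by
        have h1 : Tendsto (fun n : ℕ => η / 2 * (n : ℝ)) atTop atTop :=
          Tendsto.const_mul_atTop (by positivity) tendsto_natCast_atTop_atTop
        exact ((tendsto_rpow_atTop_of_base_gt_one 2 (by norm_num)).comp h1).eventually_ge_atTop _
      filter_upwards [symKiss_le D (half_pos hη), hlim,
        (phi_tendsto h0 h1).eventually_ge_atTop 4] with n hn hl hp
      have h2 : (kissing (phi κ n + 4) : ℝ) ≤ 16 ^ 4 * kissing (phi κ n) := by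
        exact_mod_cast kiss_iter hp 4
      calc (symKiss D n (phi κ n) : ℝ) ≤ (2 : ℝ) ^ (η / 2 * n) * kissing (phi κ n + 4) := hn _
        _ ≤ (2 : ℝ) ^ (η / 2 * n) * ((2 : ℝ) ^ (η / 2 * n) * kissing (phi κ n)) := by
            apply mul_le_mul_of_nonneg_left _ (by positivity)
            exact h2.trans (mul_le_mul_of_nonneg_right hl (Nat.cast_nonneg _))
        _ = (2 : ℝ) ^ (η * n) * kissing (phi κ n) := by
            rw [← mul_assoc, ← Real.rpow_add (by norm_num)]
            congr 2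
            ring)
  exact h

lemma kissing_ev {a : ℝ} (ha : 0 < a) :
    ∀ᶠ d : ℕ in atTop, (kissing d : ℝ) ≤ (2 : ℝ) ^ ((cplus + a) * d) := by
  have hbd : IsBoundedUnder (· ≤ ·) atTop (fun d : ℕ => Real.logb 2 (kissing d) / d) :=
    ⟨_, eventually_map.2 (Eventually.of_forall (fun d => codeRate_le sin_pos' d))⟩
  have hlt : ∀ᶠ d : ℕ in atTop, Real.logb 2 (kissing d) / d < cplus + a :=
    eventually_lt_of_limsup_lt (by rw [cplus]; linarith) hbd
  filter_upwards [hlt, eventually_gt_atTop 0] with d hd hd0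
  have hd' : (0 : ℝ) < d := by exact_mod_cast hd0
  rw [div_lt_iff₀ hd'] at hd
  rcases Nat.eq_zero_or_pos (kissing d) with h | h
  · rw [h]
    simp only [Nat.cast_zero]
    positivity
  · rw [← Real.logb_le_iff_le_rpow (by norm_num) (by exact_mod_cast h)]
    exact hd.le

lemma cplus_ge : 83 / 400 ≤ cplus := by
  have hbd : IsBoundedUnder (· ≤ ·) atTop (fun d : ℕ => Real.logb 2 (kissing d) / d) :=
    ⟨_, eventually_map.2 (Eventually.of_forall (fun d => codeRate_le sin_pos' d))⟩
  rw [cplus]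
  apply le_limsup_of_frequently_le _ hbd
  apply Eventually.frequently
  filter_upwards [eventually_gt_atTop 0] with n hn
  have hn' : (0 : ℝ) < n := by exact_mod_cast hn
  have h1 := wyner' n hn
  have h2 := Real.logb_le_logb_of_le (b := 2) (by norm_num) (by positivity) h1
  rw [Real.logb_rpow (by norm_num) (by norm_num)] at h2
  rw [le_div_iff₀ hn']
  exact h2

/-- kissing configurations with local symmetries whose common fixed space is small -/
theorem growth {D : ℕ} {δ : ℝ} (h0 : 0 ≤ δ) (h1 : δ < 1) {ε : ℝ} (hε : 0 < ε) :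
    ∀ᶠ n : ℕ in atTop, ∀ (G : Set (Isom n)) (X : Finset (E n)),
      IsSphCode n (Real.pi / 3) X → LocalSym D G X → (fixDim G : ℝ) ≤ (1 - δ) * n →
        (X.card : ℝ) ≤ (2 : ℝ) ^ (((1 - δ) * cplus + ε) * n) := by
  have hL0 : 0 ≤ cplus := by linarith [cplus_ge]
  have hfl : Tendsto (fun n : ℕ => ⌊(1 - δ) * n⌋₊) atTop atTop := by
    apply tendsto_nat_floor_atTop.comp
    exact Tendsto.const_mul_atTop (by linarith) tendsto_natCast_atTop_atTop
  have hlim : ∀ᶠ n : ℕ in atTop, (16 : ℝ) ^ 4 ≤ (2 : ℝ) ^ (ε / 4 * n) := by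
    have h1 : Tendsto (fun n : ℕ => ε / 4 * (n : ℝ)) atTop atTop :=
      Tendsto.const_mul_atTop (by positivity) tendsto_natCast_atTop_atTop
    exact ((tendsto_rpow_atTop_of_base_gt_one 2 (by norm_num)).comp h1).eventually_ge_atTop _
  filter_upwards [asymp' pi3.1 pi3.2 D (show 0 < ε / 4 by positivity),
    hfl.eventually (kissing_ev (show 0 < ε / 4 by positivity)), hfl.eventually_ge_atTop 4, hlim]
    with n hn hk h4 hl
  intro G X hX hG hf
  set j := ⌊(1 - δ) * n⌋₊ with hj
  have hn0 : (0 : ℝ) ≤ n := Nat.cast_nonneg n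
  have hfj : fixDim G ≤ j := Nat.le_floor hf
  have hjle : (j : ℝ) ≤ (1 - δ) * n := Nat.floor_le (mul_nonneg (by linarith) hn0)
  have h2 : (kissing (fixDim G + 4) : ℝ) ≤ 16 ^ 4 * kissing j := by
    have h3 : kissing (fixDim G + 4) ≤ 16 ^ 4 * kissing j :=
      (sphMax_mono sin_pos' (by omega : fixDim G + 4 ≤ j + 4)).trans (kiss_iter h4 4)
    exact_mod_cast h3
  calc (X.card : ℝ) ≤ (2 : ℝ) ^ (ε / 4 * n) * kissing (fixDim G + 4) := hn G X hX hG
    _ ≤ (2 : ℝ) ^ (ε / 4 * n) * ((2 : ℝ) ^ (ε / 4 * n) * (2 : ℝ) ^ ((cplus + ε / 4) * j)) := by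
        apply mul_le_mul_of_nonneg_left _ (by positivity)
        exact h2.trans (mul_le_mul hl hk (Nat.cast_nonneg _) (by positivity))
    _ = (2 : ℝ) ^ (ε / 4 * n + (ε / 4 * n + (cplus + ε / 4) * j)) := by
        rw [← Real.rpow_add (by norm_num), ← Real.rpow_add (by norm_num)]
    _ ≤ _ := by
        apply Real.rpow_le_rpow_of_exponent_le (by norm_num)
        have h8 : (cplus + ε / 4) * j ≤ (cplus + ε / 4) * ((1 - δ) * n) :=
          mul_le_mul_of_nonneg_left hjle (by linarith)
        have h9 : 0 ≤ ε / 4 * δ * n := by positivity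
        have h10 : 0 ≤ ε * n := by positivity
        nlinarith

/-- exponentially fewer points than in a largest configuration -/
theorem small_local (D : ℕ) : ∀ᶠ n : ℕ in atTop, ∀ (G : Set (Isom n)) (X : Finset (E n)),
      IsSphCode n (Real.pi / 3) X → LocalSym D G X → (fixDim G : ℝ) ≤ 13 / 25 * n →
        (X.card : ℝ) ≤ (2 : ℝ) ^ (-(n : ℝ) / 1000) * kissing n := by
  filter_upwards [growth (D := D) (δ := 12 / 25) (by norm_num) (by norm_num) (ε := 1 / 20000)
    (by norm_num), eventually_gt_atTop 0] with n hn hn0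
  intro G X hX hG hδ
  have h1 := hn G X hX hG (by linarith)
  have h2 := wyner' n hn0
  have hn0' : (0 : ℝ) ≤ n := Nat.cast_nonneg n
  have h3 : cplus ≤ 397 / 1000 := cplus_le
  refine h1.trans ?_
  calc (2 : ℝ) ^ (((1 - 12 / 25) * cplus + 1 / 20000) * n)
      ≤ (2 : ℝ) ^ (-(n : ℝ) / 1000 + (83 / 400 : ℝ) * n) := by
        apply Real.rpow_le_rpow_of_exponent_le (by norm_num)
        have h4 : ((1 - 12 / 25) * cplus + 1 / 20000) ≤ (-1 / 1000 + 83 / 400 : ℝ) := by
          linarith
        calc _ ≤ (-1 / 1000 + 83 / 400 : ℝ) * n := mul_le_mul_of_nonneg_right h4 hn0'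
          _ = _ := by ring
    _ = (2 : ℝ) ^ (-(n : ℝ) / 1000) * (2 : ℝ) ^ ((83 / 400 : ℝ) * n) := by
        rw [← Real.rpow_add (by norm_num)]
    _ ≤ _ := mul_le_mul_of_nonneg_left h2 (by positivity)

/-- the local symmetries of nearly optimal kissing configurations fix almost everything -/
theorem near_optimal (D : ℕ) {ε : ℝ} (hε : 0 < ε) : ∃ η : ℝ, 0 < η ∧ ∀ᶠ n : ℕ in atTop,
    ∀ (G : Set (Isom n)) (X : Finset (E n)), IsSphCode n (Real.pi / 3) X → LocalSym D G X →
      (2 : ℝ) ^ ((cplus - η) * n) ≤ X.card → (1 - ε) * n ≤ fixDim G := by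
  have hc : 0 < cplus := by linarith [cplus_ge]
  rcases lt_or_ge ε 1 with h1 | h1
  · refine ⟨ε * cplus / 4, by positivity, ?_⟩
    filter_upwards [growth (D := D) hε.le h1 (ε := ε * cplus / 4) (by positivity),
      eventually_gt_atTop 0] with n hn hn0
    intro G X hX hG hbig
    by_contra hcon
    push Not at hcon
    have h2 := hn G X hX hG hcon.le
    have h3 := hbig.trans h2
    have hn' : (0 : ℝ) < n := by exact_mod_cast hn0
    rw [Real.rpow_le_rpow_left_iff (by norm_num)] at h3
    have h4 := le_of_mul_le_mul_right h3 hn'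
    nlinarith [mul_pos hε hc]
  · refine ⟨1, one_pos, Eventually.of_forall fun n G X _ _ _ => ?_⟩
    have : (1 - ε) * n ≤ 0 := mul_nonpos_of_nonpos_of_nonneg (by linarith) (Nat.cast_nonneg _)
    exact this.trans (Nat.cast_nonneg _)

end Pool.Agent.H104.Refl
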