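import Mathlib

/-! Finite sets of unit vectors invariant under reflections: simple systems of roots and the
number of simple roots not orthogonal to a point. -/

open scoped InnerProductSpace

namespace Pool.Agent.H104.Refl

variable {E : Type*} [NormedAddCommGroup E] [InnerProductSpace ℝ E]

/-- the reflection in the hyperplane orthogonal to the unit vector `a` -/
noncomputable def refl (a x : E) : E := x - (2 * ⟪a, x⟫_ℝ) • a

lemma inner_refl {a : E} (ha : ‖a‖ = 1) (x y : E) : ⟪refl a x, refl a y⟫_ℝ = ⟪x, y⟫_ℝ := by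
  have h1 : ⟪a, a⟫_ℝ = 1 := by rw [real_inner_self_eq_norm_sq, ha]; norm_num
  simp only [refl, inner_sub_left, inner_sub_right, inner_smul_left, inner_smul_right, h1,
    RCLike.conj_to_real, real_inner_comm a x]
  ring

lemma norm_refl {a : E} (ha : ‖a‖ = 1) (x : E) : ‖refl a x‖ = ‖x‖ := by
  have h := inner_refl ha x x
  rw [real_inner_self_eq_norm_sq, real_inner_self_eq_norm_sq] at h
  exact (pow_left_inj₀ (norm_nonneg _) (norm_nonneg _) two_ne_zero).1 h

lemma refl_self {a : E} (ha : ‖a‖ = 1) : refl a a = -a := by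
  have h1 : ⟪a, a⟫_ℝ = 1 := by rw [real_inner_self_eq_norm_sq, ha]; norm_num
  simp only [refl, h1]
  module

lemma refl_neg (a x : E) : refl (-a) x = refl a x := by
  simp only [refl, inner_neg_left]
  module

lemma refl_refl {a : E} (ha : ‖a‖ = 1) (x : E) : refl a (refl a x) = x := by
  have h1 : ⟪a, a⟫_ℝ = 1 := by rw [real_inner_self_eq_norm_sq, ha]; norm_num
  simp only [refl, inner_sub_right, inner_smul_right, h1]
  module

/-- the reflection in a reflected root -/
lemma refl_conj {a : E} (ha : ‖a‖ = 1) (b x : E) :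
    refl (refl a b) x = refl a (refl b (refl a x)) := by
  have h0 : ⟪refl a b, x⟫_ℝ = ⟪b, refl a x⟫_ℝ := by
    rw [← inner_refl ha (refl a b) x, refl_refl ha]
  have h1 : ⟪a, a⟫_ℝ = 1 := by rw [real_inner_self_eq_norm_sq, ha]; norm_num
  conv_lhs => rw [refl, h0]
  set t := ⟪b, refl a x⟫_ℝ with ht
  rw [show refl b (refl a x) = refl a x - (2 * t) • b from rfl]
  have h2 : refl a (refl a x - (2 * t) • b) = refl a (refl a x) - (2 * t) • refl a b := by
    simp only [refl, inner_sub_right, inner_smul_right, h1]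
    module
  rw [h2, refl_refl ha]

/-- the roots generated by a set `R` of unit vectors -/
inductive Root (R : Set E) : E → Prop
  | base {a : E} : a ∈ R → Root R a
  | step {a b : E} : Root R a → Root R b → Root R (refl a b)

section roots

variable {R : Set E} {X : Finset E}

lemma Root.norm_eq (h1 : ∀ a ∈ R, ‖a‖ = 1) {a : E} (ha : Root R a) : ‖a‖ = 1 := by
  induction ha with
  | base h => exact h1 _ h
  | step _ _ iha ihb => rw [norm_refl iha, ihb]

lemma Root.inv (h1 : ∀ a ∈ R, ‖a‖ = 1) (h2 : ∀ a ∈ R, ∀ x ∈ X, refl a x ∈ X) {a : E}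
    (ha : Root R a) : ∀ x ∈ X, refl a x ∈ X := by
  induction ha with
  | base h => exact h2 _ h
  | step ha _ iha ihb =>
    intro x hx
    rw [refl_conj (ha.norm_eq h1)]
    exact iha _ (ihb _ (iha _ hx))

lemma Root.mem_span {a : E} (ha : Root R a) : a ∈ Submodule.span ℝ R := by
  induction ha with
  | base h => exact Submodule.subset_span h
  | step _ _ iha ihb => exact Submodule.sub_mem _ ihb (Submodule.smul_mem _ _ iha)

lemma Root.hits (h1 : ∀ a ∈ R, ‖a‖ = 1) (h2 : ∀ a ∈ R, ∀ x ∈ X, refl a x ∈ X)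
    (h3 : ∀ a ∈ R, ∃ x ∈ X, ⟪a, x⟫_ℝ ≠ 0) {a : E}
    (ha : Root R a) : ∃ x ∈ X, ⟪a, x⟫_ℝ ≠ 0 := by
  induction ha with
  | base h => exact h3 _ h
  | step ha _ _ ihb =>
    obtain ⟨x, hx, hb⟩ := ihb
    exact ⟨refl _ x, ha.inv h1 h2 x hx, by rwa [inner_refl (ha.norm_eq h1)]⟩

lemma Root.neg (h1 : ∀ a ∈ R, ‖a‖ = 1) {a : E} (ha : Root R a) : Root R (-a) := by
  rw [← refl_self (ha.norm_eq h1)]
  exact Root.step ha ha

lemma roots_finite (h1 : ∀ a ∈ R, ‖a‖ = 1) (h2 : ∀ a ∈ R, ∀ x ∈ X, refl a x ∈ X)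
    (h3 : ∀ a ∈ R, ∃ x ∈ X, ⟪a, x⟫_ℝ ≠ 0) : {a | Root R a}.Finite := by
  classical
  refine ((X ×ˢ X).image (fun p : E × E => ‖p.1 - p.2‖⁻¹ • (p.1 - p.2))).finite_toSet.subset ?_
  intro a ha
  obtain ⟨x, hx, hax⟩ := Root.hits h1 h2 h3 ha
  have hy := Root.inv h1 h2 ha x hx
  have hn := Root.norm_eq h1 ha
  have hd : x - refl a x = (2 * ⟪a, x⟫_ℝ) • a := by simp [refl]
  rw [Finset.mem_coe, Finset.mem_image]
  rcases lt_or_gt_of_ne hax with h | h
  · refine ⟨(refl a x, x), Finset.mem_product.2 ⟨hy, hx⟩, ?_⟩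
    have h4 : refl a x - x = (-(2 * ⟪a, x⟫_ℝ)) • a := by rw [← neg_sub, hd, neg_smul]
    simp only [h4, norm_smul, hn, Real.norm_eq_abs, mul_one]
    rw [abs_of_pos (by linarith), smul_smul, inv_mul_cancel₀ (by linarith), one_smul]
  · refine ⟨(x, refl a x), Finset.mem_product.2 ⟨hx, hy⟩, ?_⟩
    simp only [hd, norm_smul, hn, Real.norm_eq_abs, mul_one]
    rw [abs_of_pos (by linarith), smul_smul, inv_mul_cancel₀ (by linarith), one_smul]

end roots

/-- nonnegative combinations of a finite set -/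
def InCone (D : Finset E) (v : E) : Prop := ∃ c : E → ℝ, (∀ a, 0 ≤ c a) ∧ v = ∑ a ∈ D, c a • a

lemma inCone_mem {D : Finset E} {a : E} (ha : a ∈ D) : InCone D a := by
  classical
  refine ⟨fun b => if b = a then 1 else 0, fun b => by positivity, ?_⟩
  rw [Finset.sum_eq_single_of_mem a ha]
  · simp
  · intro b _ hb
    simp [hb]

/-- if `b ∈ D` is a nonnegative combination of the others, it can be removed -/
lemma inCone_erase [DecidableEq E] {D : Finset E} {b : E} (hb : b ∈ D)
    (h : InCone (D.erase b) b) {v : E} (hv : InCone D v) : InCone (D.erase b) v := by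
  obtain ⟨c, hc, hcv⟩ := hv
  obtain ⟨d, hd, hdb⟩ := h
  refine ⟨fun a => c a + c b * d a, fun a => add_nonneg (hc a) (mul_nonneg (hc b) (hd a)), ?_⟩
  simp only [add_smul, mul_smul, Finset.sum_add_distrib]
  rw [← Finset.smul_sum, ← hdb, hcv, Finset.sum_erase_add _ _ hb]

/-- **simple systems** -/
theorem exists_simple {Φ : Finset E} (h1 : ∀ a ∈ Φ, ‖a‖ = 1)
    (h2 : ∀ a ∈ Φ, ∀ b ∈ Φ, refl a b ∈ Φ) :
    ∃ (f : E →ₗ[ℝ] ℝ) (D : Finset E), D ⊆ Φ ∧ (∀ a ∈ D, 0 < f a) ∧
      (∀ a ∈ D, ∀ b ∈ D, a ≠ b → ⟪a, b⟫_ℝ ≤ 0) ∧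
      Submodule.span ℝ (D : Set E) = Submodule.span ℝ (Φ : Set E) := by
  classical
  obtain ⟨f, hf⟩ := Module.exists_dual_forall_apply_ne_zero (K := ℝ) (M := E)
    (fun a : Φ => (a : E)) (fun a h => by
      have := h1 a a.2
      rw [h, norm_zero] at this
      norm_num at this)
  set P : Finset E := Φ.filter (fun a => 0 < f a) with hP
  have hneg : ∀ a ∈ Φ, -a ∈ Φ := fun a ha => by
    rw [← refl_self (h1 a ha)]
    exact h2 a ha a ha
  have hPm : ∀ a ∈ Φ, a ∈ P ∨ -a ∈ P := by
    intro a ha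
    rcases lt_or_gt_of_ne (hf ⟨a, ha⟩) with h | h
    · right
      rw [hP, Finset.mem_filter]
      refine ⟨hneg a ha, ?_⟩
      rw [map_neg]
      simp only at h
      linarith
    · left
      exact Finset.mem_filter.2 ⟨ha, h⟩
  -- a minimal generating subset
  obtain ⟨D, hD, hmin⟩ : ∃ D ∈ (P.powerset.filter (fun D => ∀ v ∈ P, InCone D v)),
      ∀ D' ∈ (P.powerset.filter (fun D => ∀ v ∈ P, InCone D v)), D.card ≤ D'.card :=
    Finset.exists_min_image _ _ ⟨P, by
      rw [Finset.mem_filter, Finset.mem_powerset]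
      exact ⟨Finset.Subset.refl _, fun v hv => inCone_mem hv⟩⟩
  rw [Finset.mem_filter, Finset.mem_powerset] at hD
  obtain ⟨hDP, hDg⟩ := hD
  have hred : ∀ b ∈ D, ¬ InCone (D.erase b) b := by
    intro b hb hcon
    have h := hmin (D.erase b) (by
      rw [Finset.mem_filter, Finset.mem_powerset]
      exact ⟨(Finset.erase_subset _ _).trans hDP, fun v hv => inCone_erase hb hcon (hDg v hv)⟩)
    rw [Finset.card_erase_of_mem hb] at h
    have := Finset.card_pos.2 ⟨b, hb⟩
    omega
  have hfD : ∀ a ∈ D, 0 < f a := fun a ha => (Finset.mem_filter.1 (hDP ha)).2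
  have hDΦ : D ⊆ Φ := hDP.trans (Finset.filter_subset _ _)
  refine ⟨f, D, hDΦ, hfD, ?_, ?_⟩
  · intro a ha b hb hab
    by_contra hpos
    push Not at hpos
    set t := 2 * ⟪a, b⟫_ℝ with ht
    have htpos : 0 < t := by rw [ht]; linarith
    have hr : refl a b = b - t • a := rfl
    have haE : a ∈ D.erase b := Finset.mem_erase.2 ⟨hab, ha⟩
    have hbE : b ∈ D.erase a := Finset.mem_erase.2 ⟨hab.symm, hb⟩
    rcases hPm _ (h2 a (hDΦ ha) b (hDΦ hb)) with h | h
    · -- `b - t a` is a positive root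
      obtain ⟨c, hc, hce⟩ := hDg _ h
      rw [hr, ← Finset.add_sum_erase _ _ hb] at hce
      rcases lt_or_ge (c b) 1 with hcb | hcb
      · apply hred b hb
        have h3 : (1 - c b) • b = t • a + ∑ x ∈ D.erase b, c x • x := by
          have h : (1 - c b) • b - (t • a + ∑ x ∈ D.erase b, c x • x) =
            (b - t • a) - (c b • b + ∑ x ∈ D.erase b, c x • x) := by module
          rw [← sub_eq_zero, h, hce, sub_self]
        refine ⟨fun x => (1 - c b)⁻¹ * ((if x = a then t else 0) + c x), fun x => by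
          have := hc x
          have h5 : 0 < 1 - c b := by linarith
          positivity, ?_⟩
        simp only [mul_smul, ← Finset.smul_sum, add_smul, Finset.sum_add_distrib, ite_smul,
          zero_smul, Finset.sum_ite_eq', haE, if_true]
        rw [← h3, smul_smul, inv_mul_cancel₀ (by linarith), one_smul]
      · have h3 := congrArg f hce
        rw [map_sub, map_add, map_smul, map_smul, map_sum] at h3
        simp only [map_smul, smul_eq_mul] at h3
        have h4 : 0 ≤ ∑ x ∈ D.erase b, c x * f x := Finset.sum_nonneg fun x hx =>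
          mul_nonneg (hc x) (hfD x (Finset.mem_of_mem_erase hx)).le
        have h5 := hfD a ha
        have h6 := hfD b hb
        nlinarith [mul_pos htpos h5]
    · -- `t a - b` is a positive root
      obtain ⟨c, hc, hce⟩ := hDg _ h
      rw [hr, ← Finset.add_sum_erase _ _ ha] at hce
      rcases lt_or_ge (c a) t with hca | hca
      · apply hred a ha
        have h3 : (t - c a) • a = b + ∑ x ∈ D.erase a, c x • x := by
          have h : (t - c a) • a - (b + ∑ x ∈ D.erase a, c x • x) =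
            -(b - t • a) - (c a • a + ∑ x ∈ D.erase a, c x • x) := by module
          rw [← sub_eq_zero, h, hce, sub_self]
        refine ⟨fun x => (t - c a)⁻¹ * ((if x = b then 1 else 0) + c x), fun x => by
          have := hc x
          have h5 : 0 < t - c a := by linarith
          positivity, ?_⟩
        simp only [mul_smul, ← Finset.smul_sum, add_smul, Finset.sum_add_distrib, ite_smul,
          zero_smul, one_smul, Finset.sum_ite_eq', hbE, if_true]
        rw [← h3, smul_smul, inv_mul_cancel₀ (by linarith), one_smul]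
      · have h3 := congrArg f hce
        rw [map_neg, map_sub, map_add, map_smul, map_smul, map_sum] at h3
        simp only [map_smul, smul_eq_mul] at h3
        have h4 : 0 ≤ ∑ x ∈ D.erase a, c x * f x := Finset.sum_nonneg fun x hx =>
          mul_nonneg (hc x) (hfD x (Finset.mem_of_mem_erase hx)).le
        have h5 := hfD a ha
        have h6 := hfD b hb
        nlinarith [mul_pos htpos h5]
  · apply le_antisymm (Submodule.span_mono (by exact_mod_cast hDΦ))
    rw [Submodule.span_le]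
    have hcone : ∀ v ∈ P, v ∈ Submodule.span ℝ (D : Set E) := by
      intro v hv
      obtain ⟨c, _, hce⟩ := hDg v hv
      rw [hce]
      exact Submodule.sum_mem _ fun x hx => Submodule.smul_mem _ _ (Submodule.subset_span hx)
    intro a ha
    rcases hPm a ha with h | h
    · exact hcone a h
    · have := Submodule.neg_mem _ (hcone _ h)
      rwa [neg_neg] at this

lemma norm_sum_sq_le {T : Finset E} (h1 : ∀ a ∈ T, ‖a‖ = 1)
    (h2 : ∀ a ∈ T, ∀ b ∈ T, a ≠ b → ⟪a, b⟫_ℝ ≤ 0) : ‖∑ a ∈ T, a‖ ^ 2 ≤ T.card := by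
  classical
  rw [← real_inner_self_eq_norm_sq, sum_inner]
  calc ∑ a ∈ T, ⟪a, ∑ b ∈ T, b⟫_ℝ ≤ ∑ a ∈ T, (1 : ℝ) := by
        apply Finset.sum_le_sum
        intro a ha
        rw [inner_sum, ← Finset.add_sum_erase _ _ ha, real_inner_self_eq_norm_sq, h1 a ha]
        have : ∑ b ∈ T.erase a, ⟪a, b⟫_ℝ ≤ 0 := Finset.sum_nonpos fun b hb =>
          h2 a ha b (Finset.mem_of_mem_erase hb) (Finset.ne_of_mem_erase hb).symm
        linarith
    _ = T.card := by simp

/-- a unit vector has a large inner product with few members of a simple system -/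
theorem few_simple {f : E →ₗ[ℝ] ℝ} {S : Finset E} (h1 : ∀ a ∈ S, ‖a‖ = 1)
    (hf : ∀ a ∈ S, 0 < f a) (h2 : ∀ a ∈ S, ∀ b ∈ S, a ≠ b → ⟪a, b⟫_ℝ ≤ 0)
    {x : E} (hx : ‖x‖ = 1) {s : ℝ} (hs : 0 < s) (h3 : ∀ a ∈ S, s ≤ |⟪a, x⟫_ℝ|)
    (hne : S.Nonempty) : S.card * s ^ 2 < 2 := by
  classical
  set P := S.filter (fun a => 0 < ⟪a, x⟫_ℝ) with hP
  set N := S.filter (fun a => ¬ 0 < ⟪a, x⟫_ℝ) with hN
  set A := ∑ a ∈ P, a with hA
  set B := ∑ a ∈ N, a with hB
  have hPN : P.card + N.card = S.card := Finset.card_filter_add_card_filter_not _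
  have hAn : ‖A‖ ^ 2 ≤ P.card := norm_sum_sq_le (fun a ha => h1 a (Finset.mem_of_mem_filter a ha))
    (fun a ha b hb => h2 a (Finset.mem_of_mem_filter a ha) b (Finset.mem_of_mem_filter b hb))
  have hBn : ‖B‖ ^ 2 ≤ N.card := norm_sum_sq_le (fun a ha => h1 a (Finset.mem_of_mem_filter a ha))
    (fun a ha b hb => h2 a (Finset.mem_of_mem_filter a ha) b (Finset.mem_of_mem_filter b hb))
  have hAB : A + B = ∑ a ∈ S, a := Finset.sum_filter_add_sum_filter_not _ _ _
  have hABne : A + B ≠ 0 := by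
    intro h
    have h4 : 0 < f (A + B) := by
      rw [hAB, map_sum]
      exact Finset.sum_pos hf hne
    rw [h, map_zero] at h4
    exact lt_irrefl _ h4
  have hpl := parallelogram_law_with_norm ℝ A B
  have hpos : 0 < ‖A + B‖ * ‖A + B‖ := mul_pos (norm_pos_iff.2 hABne) (norm_pos_iff.2 hABne)
  have hcard : (P.card : ℝ) + N.card = S.card := by exact_mod_cast hPN
  have hlt : ‖A - B‖ ^ 2 < 2 * S.card := by nlinarith
  -- the inner product
  have hin : S.card * s ≤ ⟪A - B, x⟫_ℝ := by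
    rw [inner_sub_left, hA, hB, sum_inner, sum_inner]
    have e1 : ∑ a ∈ P, ⟪a, x⟫_ℝ ≥ P.card * s := by
      have : ∑ a ∈ P, s ≤ ∑ a ∈ P, ⟪a, x⟫_ℝ := by
        apply Finset.sum_le_sum
        intro a ha
        obtain ⟨h5, h6⟩ := Finset.mem_filter.1 ha
        have := h3 a h5
        rwa [abs_of_pos h6] at this
      rw [Finset.sum_const, nsmul_eq_mul] at this
      exact this
    have e2 : -∑ a ∈ N, ⟪a, x⟫_ℝ ≥ N.card * s := by
      rw [← Finset.sum_neg_distrib]
      have : ∑ a ∈ N, s ≤ ∑ a ∈ N, -⟪a, x⟫_ℝ := by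
        apply Finset.sum_le_sum
        intro a ha
        obtain ⟨h5, h6⟩ := Finset.mem_filter.1 ha
        have := h3 a h5
        rwa [abs_of_nonpos (not_lt.1 h6)] at this
      rw [Finset.sum_const, nsmul_eq_mul] at this
      exact this
    have e3 : (S.card : ℝ) * s = P.card * s + N.card * s := by rw [← hcard]; ring
    linarith
  have hcs : ⟪A - B, x⟫_ℝ ≤ ‖A - B‖ := by
    have := real_inner_le_norm (A - B) x
    rwa [hx, mul_one] at this
  have hc0 : (0 : ℝ) < S.card := by exact_mod_cast Finset.card_pos.2 hne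
  have h7 : ((S.card : ℝ) * s) ^ 2 < 2 * (S.card : ℝ) := by
    have h8 : 0 ≤ (S.card : ℝ) * s := by positivity
    calc ((S.card : ℝ) * s) ^ 2 ≤ ‖A - B‖ ^ 2 := by
          apply pow_le_pow_left₀ h8 (hin.trans hcs)
      _ < 2 * (S.card : ℝ) := hlt
  have h9 : (S.card : ℝ) * (S.card * s ^ 2) < S.card * 2 := by nlinarith
  exact lt_of_mul_lt_mul_left h9 hc0.le

end Pool.Agent.H104.Refl
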